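import Pool.Agent.Lib.Pa7c826w.Final
import Pool.Agent.Lib.Pa7c826g.Hard
import Pool.Agent.Lib.Pa7c826t.FTransfer

/-!
The hardness theorems for deterministic schemes: the reductions are deterministic.
-/

namespace Pool.Agent.Lib.Pa7c826w

open Filter Pool.Agent.Lib.PolyTime Pool.Agent.Lib.Pa7c826 Pool.Agent.Lib.Pa7c826y
  Pool.Agent.Lib.Pa7c826z

open FinalAux

/-- **Transfer**, one-sided deterministic version. -/
theorem transferD {C C' : BGraph → Prop} (red : BGraph → ℕ → BGraph)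
    (K : BGraph → ℕ → ℕ)
    (hred : PolyC (fun x : BGraph × ℕ => C x.1 ∧ 1 ≤ x.2) [fun x => inCode x.1 x.2]
      (fun x => inCode (red x.1 x.2) (2 * x.2)))
    (hK : PolyN (fun x : BGraph × ℕ => C x.1 ∧ 1 ≤ x.2) [fun x => inCode x.1 x.2]
      (fun x => K x.1 x.2))
    (hC : ∀ G t, C G → 1 ≤ t → C' (red G t))
    (h1 : ∀ G t, C G → 1 ≤ t →
      (numIndep G.graph : ℚ) ≤ numIndep (red G t).graph / 2 ^ K G t)
    (h2 : ∀ G t, C G → 1 ≤ t → (numIndep (red G t).graph : ℚ) / 2 ^ K G t ≤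
      numIndep G.graph + numIndep G.graph / (2 * t + 1))
    (h : HasFPTAS C') : HasFPTAS C := by
  refine Pa7c826t.HasFPTAS.transfer2 red K hred hK hC (fun G t hG ht => ?_) h
  rw [abs_of_nonneg (sub_nonneg.2 (h1 G t hG ht))]
  linarith [h2 G t hG ht]

theorem hard_densityD {h d : ℕ} (hh : 0 < h) (hd : 0 < d) (hdh : d ≤ h) {w : ℕ → ℝ}
    (hw : ∃ k : ℕ, ∀ r N : ℕ, 2 ≤ r → r ^ k ≤ N → (r : ℝ) ≤ w N)
    (H : HasFPTAS (DegreeRange (d / (2 * h)) (d / (2 * h)) w)) :
    HasFPTAS (fun _ => True) := by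
  obtain ⟨k, hk⟩ := hw
  exact transferD (red4 h d k) (K4 h d k) (poly_red4 k hh _) (poly_K4 h d k _)
    (fun G t _ _ => red4_class k hh hdh hd hk G t)
    (fun G t _ _ => red4_lower k hh G t)
    (fun G t _ _ => red4_upper k hh hd G t) H

theorem hard_ratD (q : ℚ) (h0 : 0 < q) (h1 : q ≤ 1 / 2) {w : ℕ → ℝ}
    (hw : ∃ k : ℕ, ∀ r N : ℕ, 2 ≤ r → r ^ k ≤ N → (r : ℝ) ≤ w N)
    (H : HasFPTAS (DegreeRange q q w)) : HasFPTAS (fun _ => True) := by
  have hn : 0 < q.num := Rat.num_pos.2 h0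
  have e : (q : ℝ) = ((2 * q.num.toNat : ℕ) : ℝ) / (2 * (q.den : ℝ)) := by
    have h2 : ((q.num.toNat : ℕ) : ℝ) = (q.num : ℝ) := by
      have : ((q.num.toNat : ℕ) : ℤ) = q.num := Int.toNat_of_nonneg hn.le
      exact_mod_cast this
    have h3 : (q : ℝ) = (q.num : ℝ) / (q.den : ℝ) := by
      exact_mod_cast (Rat.num_div_den q).symm
    have h4 : (0 : ℝ) < q.den := by exact_mod_cast q.den_pos
    push_cast
    rw [h2, h3]
    field_simp
  rw [e] at H
  refine hard_densityD q.den_pos (by omega) ?_ hw H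
  have h5 : q * 2 ≤ 1 := by linarith
  have h6 : (q.num : ℚ) * 2 ≤ q.den := by
    have h7 : (0 : ℚ) < q.den := by exact_mod_cast q.den_pos
    have h8 : q * q.den = q.num := Rat.mul_den_eq_num q
    rw [← h8]
    nlinarith
  have h9 : q.num * 2 ≤ q.den := by exact_mod_cast h6
  omega

theorem hard_rangeD {x y : ℝ} (hx : 0 < x) (hxy : x < y) (hx2 : x < 1 / 2)
    (H : HasFPTAS (DegreeRange x y (fun _ => 0))) : HasFPTAS (fun _ => True) := by
  obtain ⟨q, hq1, hq2⟩ := exists_rat_btwn (lt_min hxy hx2)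
  have hqy : (q : ℝ) < y := hq2.trans_le (min_le_left _ _)
  have hqh : (q : ℝ) < 1 / 2 := hq2.trans_le (min_le_right _ _)
  set δ : ℝ := min (q - x) (y - q) with hδ
  have hδ0 : 0 < δ := lt_min (by linarith) (by linarith)
  have h0 : 0 < q := by
    have : (0 : ℝ) < q := hx.trans hq1
    exact_mod_cast this
  have h1 : q ≤ 1 / 2 := by
    have : (q : ℝ) ≤ ((1 / 2 : ℚ) : ℝ) := by
      push_cast
      linarith
    exact_mod_cast this
  refine hard_ratD q h0 h1 (window_linear hδ0) (Pa7c826t.HasFPTAS.mono ?_ H)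
  rintro G ⟨e, hr, hc⟩
  have hN : (0 : ℝ) ≤ G.a := Nat.cast_nonneg _
  have k1 : δ * G.a ≤ (q - x) * G.a := mul_le_mul_of_nonneg_right (min_le_left _ _) hN
  have k2 : δ * G.a ≤ (y - q) * G.a := mul_le_mul_of_nonneg_right (min_le_right _ _) hN
  refine ⟨e, fun i => ?_, fun j => ?_⟩
  · have := hr i
    constructor <;> nlinarith [this.1, this.2]
  · have := hc j
    constructor <;> nlinarith [this.1, this.2]

theorem core_hardD {v : ℕ → ℝ} (hv0 : ∀ M, 0 ≤ v M) {k : ℕ}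
    (hv : ∀ M : ℕ, 2 ≤ M → (M : ℝ) ≤ v (M + M ^ k)) (H : HasFPTAS (SmallCore v)) :
    HasFPTAS (fun _ => True) := by
  have hw : PolyC (fun x : BGraph × ℕ => (fun _ : BGraph => True) x.1 ∧ 1 ≤ x.2)
      [fun x => inCode x.1 x.2] (fun x => inCode x.1 x.2) := PolyC.var (by simp)
  have ha := poly_a hw
  have hb := poly_b hw
  have ht := poly_s hw
  have hK := PolyN.pow (ha.add hb) k
  refine Pa7c826t.HasFPTAS.transfer2 (fun G _ => padG G ((G.a + G.b) ^ k))
    (fun G _ => (G.a + G.b) ^ k) ?_ hK ?_ ?_ H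
  · refine poly_inCode (a := fun x : BGraph × ℕ => x.1.a + (x.1.a + x.1.b) ^ k)
      (b := fun x : BGraph × ℕ => x.1.b) (F := fun x => x.1.F) (ha.add hK) hb
      ((PolyN.const 2).mul ht) ?_
    have W1 := up (n := fun x : BGraph × ℕ => x.1.a + (x.1.a + x.1.b) ^ k) hw
    have I1 := last (D := fun x : BGraph × ℕ => (fun _ : BGraph => True) x.1 ∧ 1 ≤ x.2)
      (ctx := [fun x => inCode x.1 x.2])
      (n := fun x : BGraph × ℕ => x.1.a + (x.1.a + x.1.b) ^ k)
    have W2 := up (n := fun p : (BGraph × ℕ) × ℕ => p.1.1.b) W1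
    have I2 := upN (n := fun p : (BGraph × ℕ) × ℕ => p.1.1.b) I1
    have J2 := last (D := fun p : (BGraph × ℕ) × ℕ =>
        ((fun _ : BGraph => True) p.1.1 ∧ 1 ≤ p.1.2) ∧ p.2 < p.1.1.a + (p.1.1.a + p.1.1.b) ^ k)
      (ctx := PolyTime.lift [fun x : BGraph × ℕ => inCode x.1 x.2] ++
        [fun p : (BGraph × ℕ) × ℕ => un p.2]) (n := fun p => p.1.1.b)
    exact poly_F W2 I2 J2
  · intro G t _ _
    unfold SmallCore
    have e : ((padG G ((G.a + G.b) ^ k)).a + (padG G ((G.a + G.b) ^ k)).b) =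
        (G.a + G.b) + (G.a + G.b) ^ k := by
      show (G.a + (G.a + G.b) ^ k) + G.b = _
      ring
    rw [e]
    rcases Nat.lt_or_ge (G.a + G.b) 2 with h | h
    · have h1 := supp_padG G ((G.a + G.b) ^ k)
      rw [supp_small G (by omega)] at h1
      have h2 : supp (padG G ((G.a + G.b) ^ k)) = 0 := by omega
      rw [h2, Nat.cast_zero]
      exact hv0 _
    · refine le_trans ?_ (hv _ h)
      exact_mod_cast (supp_padG G _).trans (supp_le G)
  · intro G t _ _
    rw [numIndep_padG]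
    have h2 : (0 : ℚ) < 2 ^ ((G.a + G.b) ^ k) := by positivity
    have e : ((numIndep G.graph * 2 ^ ((G.a + G.b) ^ k) : ℕ) : ℚ) / 2 ^ ((G.a + G.b) ^ k) =
        numIndep G.graph := by
      push_cast
      rw [mul_div_assoc, div_self h2.ne', mul_one]
    rw [e, sub_self, abs_zero]
    positivity

theorem hard_window2 {x y : ℝ} (hx0 : 0 < x) (hx : x ≤ 1 / 2) (hxy : x ≤ y) (hf : FloorPoly x) :
    ∃ c : ℝ, 0 < c ∧ ∀ w : ℕ → ℝ, Monotone w → (∀ᶠ N : ℕ in atTop, Real.logb 2 N ≤ w N) →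
      (HasFPRAS (DegreeRange x y w) → HasFPRAS (SmallCore (fun M => c * w M))) ∧
      (HasFPTAS (DegreeRange x y w) → HasFPTAS (SmallCore (fun M => c * w M))) := by
  set h : ℕ := ⌈2 / x⌉₊ with hh
  have h1 : 2 ≤ x * h := by
    have h2 : 2 / x ≤ h := Nat.le_ceil _
    rw [div_le_iff₀ hx0] at h2
    linarith
  have hh0 : 0 < h := by
    rw [hh]
    exact Nat.ceil_pos.2 (by positivity)
  have hC : (0 : ℝ) < devC h := by
    have : 0 < devC h := by
      unfold devC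
      omega
    exact_mod_cast this
  refine ⟨1 / (2 * devC h), by positivity, ?_⟩
  intro w hw hlog
  obtain ⟨n0, hn0⟩ := eventually_atTop.1 hlog
  have hcl : ∀ G t, SmallCore (fun M => 1 / (2 * devC h) * w M) G → 1 ≤ t →
      DegreeRange x y w (red5 x h (4 * devC h) n0 G t) := by
    intro G t hG ht
    refine range_mono (fun N => le_refl _) (fun N => ?_) _
      (class5 _ _ hx0 hx h1 hw hn0 le_rfl G hG ht)
    have : (0 : ℝ) ≤ N := Nat.cast_nonneg _
    have := mul_le_mul_of_nonneg_right hxy this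
    linarith
  exact ⟨HasFPRAS.transfer2 (red5 x h (4 * devC h) n0)
      (K5 h (4 * devC h) n0) (poly_red5 _ hf hh0) (poly_K5 _) hcl
      (fun G t _ _ => close5 _ _ hx0 hx h1 G t),
    Pa7c826t.HasFPTAS.transfer2 (red5 x h (4 * devC h) n0)
      (K5 h (4 * devC h) n0) (poly_red5 _ hf hh0) (poly_K5 _) hcl
      (fun G t _ _ => close5 _ _ hx0 hx h1 G t)⟩

theorem hard_rpowD {x y : ℝ} (hx0 : 0 < x) (hx : x ≤ 1 / 2) (hxy : x ≤ y) (hf : FloorPoly x)
    {ε : ℝ} (hε : 0 < ε) (H : HasFPTAS (DegreeRange x y (fun N => (N : ℝ) ^ ε))) :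
    HasFPTAS (fun _ => True) := by
  obtain ⟨c, hc, h0⟩ := hard_window2 hx0 hx hxy hf
  have h1 := fun w hw hl => (h0 w hw hl).2
  have h2 := h1 (fun N => (N : ℝ) ^ ε) ?_ ?_ H
  · obtain ⟨k, hk⟩ := rpow_core hc hε
    refine core_hardD (k := k) (fun M => by positivity) ?_ h2
    intro M hM
    exact hk M hM
  · intro a b hab
    exact Real.rpow_le_rpow (Nat.cast_nonneg _) (by exact_mod_cast hab) hε.le
  · have h3 := isLittleO_log_rpow_atTop hε
    have h4 := (h3.def (show (0 : ℝ) < Real.log 2 by positivity))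
    have h5 := tendsto_natCast_atTop_atTop (R := ℝ) |>.eventually h4
    filter_upwards [h5, eventually_ge_atTop 1] with N hN hN1
    have h6 : (1 : ℝ) ≤ N := by exact_mod_cast hN1
    rw [Real.norm_of_nonneg (Real.log_nonneg h6), Real.norm_of_nonneg (by positivity)] at hN
    rw [Real.logb, div_le_iff₀ (Real.log_pos (by norm_num))]
    linarith

theorem hard_linearD {x y θ : ℝ} (hx0 : 0 < x) (hxy : x ≤ y) (hθ0 : 0 < θ) (hθ : x - 1 / 2 < θ)
    (H : HasFPTAS (DegreeRange x y (fun N => θ * N))) : HasFPTAS (fun _ => True) := by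
  set x' : ℝ := max (x - θ) (min x (1 / 2) / 2) with hx'
  have h0 : 0 < min x (1 / 2) := lt_min hx0 (by norm_num)
  have h1 : 0 < x' := lt_of_lt_of_le (by linarith) (le_max_right _ _)
  have h2 : x' < 1 / 2 := by
    refine max_lt (by linarith) ?_
    have : min x (1 / 2) ≤ 1 / 2 := min_le_right _ _
    linarith
  have h3 : x' < y := by
    refine max_lt (by linarith) ?_
    have : min x (1 / 2) ≤ x := min_le_left _ _
    linarith
  have h4 : x - θ ≤ x' := le_max_left _ _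
  refine hard_rangeD h1 h3 h2 (Pa7c826t.HasFPTAS.mono ?_ H)
  refine range_mono (fun N => ?_) (fun N => ?_)
  · have h5 : (0 : ℝ) ≤ N := Nat.cast_nonneg _
    have := mul_le_mul_of_nonneg_right h4 h5
    linarith
  · have h5 : (0 : ℝ) ≤ N := Nat.cast_nonneg _
    have := mul_nonneg hθ0.le h5
    linarith

open Pool.Agent.Lib.Pa7c826g in
/-- Hardness below the threshold of the gap, deterministic schemes. -/
theorem hard_gapD {δ γ : ℝ} (h0 : 0 ≤ δ) (h1 : δ < 1) (h2 : γ < 1 - δ) (h3 : γ < 1 / 2) :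
    HasFPTAS (DegreeGap δ γ) ↔ HasFPTAS (fun _ => True) := by
  obtain ⟨p, q, hq, hp, hδ, hγ⟩ := exists_pq h0 h1 h2 h3
  refine ⟨fun H => ?_, Pa7c826t.HasFPTAS.mono fun _ _ => trivial⟩
  exact Pa7c826t.HasFPTAS.transfer2 (redG p q) (KG p q) (poly_redG p q _) (poly_KG p q _)
    (fun G t _ _ => class_redG hq hp h0 hδ hγ G t)
    (fun G t _ _ => close_redG hq hp G t) H

end Pool.Agent.Lib.Pa7c826w
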