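import Pool.Agent.Lib.Pa7c826z.Host

/-!
The arc graph: left vertices `i < h p`, right vertices `j < h q`, placed at the positions `i / (h p)`
and `j / (h q)` of a circle of length one; `i` is adjacent to the `j` in the arc of length
`L / (h p q)` behind it.

PROOFS. Put `n = h p q`, `val i j = (j p + (n - i q)) % n`.
`arc_row`: for fixed `i`, `j ↦ val i j` is injective on `j < h q` (`j p ≡ j' p` mod `h p q` gives
`j ≡ j'` mod `h q`: `Nat.ModEq.mul_right_cancel'`) with values in `{v < n | v ≡ n - i q [MOD p]}`,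
which has `h q` elements, so it is a bijection onto that set. So the number of `j` with `val i j < L`
is the number of `v < L` in a residue class mod `p` (`L ≤ n`), which is `L / p` or `L / p + 1`
(`Nat.count_modEq_card`, `Nat.count_eq_card_filter_range`).
`arc_col`: for fixed `j`, `i ↦ val i j` is injective on `i < h p` with values
`≡ j p [MOD q]` (`q ∣ n`), again a bijection with the residue class below `n`.
-/

namespace Pool.Agent.Lib.Pa7c826w

open Pool.Agent.Lib.Pa7c826 Pool.Agent.Lib.Pa7c826z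

/-- the arc relation -/
def arc (h p q L i j : ℕ) : Prop := (j * p + (h * p * q - i * q)) % (h * p * q) < L

/-- counting values below `L` of an injective map onto a residue class -/
theorem arc_ncard_aux {m p L : ℕ} (hp : 0 < p) (hL : L ≤ m * p) (φ : Fin m → ℕ)
    (hinj : Function.Injective φ) (hlt : ∀ j, φ j < m * p) (c : ℕ) (hc : ∀ j, φ j ≡ c [MOD p]) :
    {j : Fin m | φ j < L}.ncard = Nat.count (· ≡ c [MOD p]) L := by
  classical
  have himg : Finset.univ.image φ = (Finset.range (m * p)).filter (· ≡ c [MOD p]) := by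
    apply Finset.eq_of_subset_of_card_le
    · intro v hv
      obtain ⟨j, _, rfl⟩ := Finset.mem_image.1 hv
      exact Finset.mem_filter.2 ⟨Finset.mem_range.2 (hlt j), hc j⟩
    · rw [Finset.card_image_of_injective _ hinj, ← Nat.count_eq_card_filter_range,
        Nat.count_modEq_card _ hp]
      simp [hp]
  have h1 : {j : Fin m | φ j < L}.ncard = (φ '' {j : Fin m | φ j < L}).ncard :=
    (Set.ncard_image_of_injective _ hinj).symm
  have h2 : φ '' {j : Fin m | φ j < L} =
      ((Finset.range L).filter (· ≡ c [MOD p]) : Finset ℕ) := by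
    ext v
    simp only [Set.mem_image, Set.mem_ofPred_eq, Finset.coe_filter, Finset.mem_range]
    constructor
    · rintro ⟨j, hj, rfl⟩
      exact ⟨hj, hc j⟩
    · rintro ⟨hv, hvc⟩
      have h3 : v ∈ Finset.univ.image φ := by
        rw [himg]
        exact Finset.mem_filter.2 ⟨Finset.mem_range.2 (lt_of_lt_of_le hv hL), hvc⟩
      obtain ⟨j, _, rfl⟩ := Finset.mem_image.1 h3
      exact ⟨j, hv, rfl⟩
  rw [h1, h2, Set.ncard_coe_finset, Nat.count_eq_card_filter_range]

theorem arc_ncard {m p L : ℕ} (hp : 0 < p) (hL : L ≤ m * p) (φ : Fin m → ℕ)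
    (hinj : Function.Injective φ) (hlt : ∀ j, φ j < m * p) (c : ℕ) (hc : ∀ j, φ j ≡ c [MOD p]) :
    L / p ≤ {j : Fin m | φ j < L}.ncard ∧ {j : Fin m | φ j < L}.ncard ≤ L / p + 1 := by
  rw [arc_ncard_aux hp hL φ hinj hlt c hc, Nat.count_modEq_card _ hp]
  split_ifs <;> omega

theorem arc_row {h p q L : ℕ} (hp : 0 < p) (hq : 0 < q) (hL : L ≤ h * p * q) (i : Fin (h * p)) :
    L / p ≤ {j : Fin (h * q) | arc h p q L i j}.ncard ∧
      {j : Fin (h * q) | arc h p q L i j}.ncard ≤ L / p + 1 := by
  have hh : 0 < h := by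
    rcases Nat.eq_zero_or_pos h with h0 | h0
    · subst h0; exact absurd i.2 (by simp)
    · exact h0
  have hn : h * p * q = h * q * p := by ring
  have hn0 : 0 < h * p * q := by positivity
  refine arc_ncard hp (by rw [← hn]; exact hL)
    (fun j : Fin (h * q) => (j * p + (h * p * q - i * q)) % (h * p * q)) ?_ ?_
    (h * p * q - i * q) ?_
  · intro j j' hjj
    have h1 : (j : ℕ) * p + (h * p * q - i * q) ≡ (j' : ℕ) * p + (h * p * q - i * q)
        [MOD h * p * q] := hjj
    have h2 := Nat.ModEq.add_right_cancel' _ h1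
    rw [hn] at h2
    have h3 := Nat.ModEq.mul_right_cancel' hp.ne' h2
    exact Fin.ext (Nat.ModEq.eq_of_lt_of_lt h3 j.2 j'.2)
  · intro j
    have := Nat.mod_lt (j * p + (h * p * q - i * q)) hn0
    rw [hn] at this ⊢
    exact this
  · intro j
    have hd : p ∣ h * p * q := ⟨h * q, by ring⟩
    have h1 : (j * p + (h * p * q - i * q)) % (h * p * q) ≡ j * p + (h * p * q - i * q) [MOD p] :=
      Nat.mod_mod_of_dvd _ hd
    refine h1.trans ?_
    have h2 : (j : ℕ) * p + (h * p * q - i * q) ≡ 0 + (h * p * q - i * q) [MOD p] :=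
      Nat.ModEq.add_right _ ((Nat.modEq_zero_iff_dvd).2 (Dvd.intro_left _ rfl))
    rwa [Nat.zero_add] at h2

theorem arc_col {h p q L : ℕ} (hp : 0 < p) (hq : 0 < q) (hL : L ≤ h * p * q) (j : Fin (h * q)) :
    L / q ≤ {i : Fin (h * p) | arc h p q L i j}.ncard ∧
      {i : Fin (h * p) | arc h p q L i j}.ncard ≤ L / q + 1 := by
  have hh : 0 < h := by
    rcases Nat.eq_zero_or_pos h with h0 | h0
    · subst h0; exact absurd j.2 (by simp)
    · exact h0
  have hn0 : 0 < h * p * q := by positivity
  have hle : ∀ i : Fin (h * p), (i : ℕ) * q ≤ h * p * q := fun i =>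
    Nat.mul_le_mul_right q i.2.le
  refine arc_ncard hq hL
    (fun i : Fin (h * p) => (j * p + (h * p * q - i * q)) % (h * p * q)) ?_ ?_
    (j * p) ?_
  · intro i i' hii
    have h1 : (j : ℕ) * p + (h * p * q - i * q) ≡ (j : ℕ) * p + (h * p * q - i' * q)
        [MOD h * p * q] := hii
    have h2 := Nat.ModEq.add_left_cancel' _ h1
    have h3 : (h * p * q - i * q) + (i * q + i' * q) ≡ (h * p * q - i' * q) + (i * q + i' * q)
        [MOD h * p * q] := h2.add_right _
    have e1 : (h * p * q - i * q) + (i * q + i' * q) = h * p * q + i' * q := by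
      have := hle i; omega
    have e2 : (h * p * q - i' * q) + (i * q + i' * q) = h * p * q + i * q := by
      have := hle i'; omega
    rw [e1, e2] at h3
    have h4 := Nat.ModEq.add_left_cancel' _ h3
    have h5 := Nat.ModEq.mul_right_cancel' hq.ne' h4
    exact Fin.ext (Nat.ModEq.eq_of_lt_of_lt h5 i'.2 i.2).symm
  · intro i
    exact Nat.mod_lt _ hn0
  · intro i
    have hd : q ∣ h * p * q := Dvd.intro_left _ rfl
    have h1 : (j * p + (h * p * q - i * q)) % (h * p * q) ≡ j * p + (h * p * q - i * q) [MOD q] :=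
      Nat.mod_mod_of_dvd _ hd
    refine h1.trans ?_
    have h3 : q ∣ h * p * q - i * q := Nat.dvd_sub hd (Dvd.intro_left _ rfl)
    have h2 : (j : ℕ) * p + (h * p * q - i * q) ≡ j * p + 0 [MOD q] :=
      Nat.ModEq.add_left _ ((Nat.modEq_zero_iff_dvd).2 h3)
    rwa [Nat.add_zero] at h2

end Pool.Agent.Lib.Pa7c826w
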