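import Pool.Agent.Lib.Pa7c826w.Arc

/-!
The arc graph contains the blow-up of a matching.

PROOF (with `n = h p q`, `val i j = (j p + (n - i q)) % n`).
`cnt_arc_le`: for `i = p r + i'`, `j = q r' + j'`, `r' = (r + 1) % h`, `i' < p`, `j' < q`:
`val i j < 2 p q ≤ L`. (Case `r + 1 < h`: `j p - i q = p q + j' p - i' q ∈ (0, 2 p q)`. Case
`r + 1 = h`: `r' = 0`, `j p + (n - i q) = j' p + n - (h - 1) p q - i' q = p q + j' p - i' q`.) So
`arc` contains the blow-up of the identity matching, up to the renumbering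
`(r, i') ↦ p r + i'`, `(r, j') ↦ q ((r + 1) % h) + j'`: use `cnt_congr`, `cnt_anti`, `cnt_blow_le`
(`Pa7c826z/Host.lean`), with `finProdFinEquiv : Fin h × Fin p ≃ Fin (h * p)`,
`finProdFinEquiv (x, y) = y + p * x`, composed on one side with the cyclic shift
`Equiv.addRight 1` (or `finRotate`).
-/

namespace Pool.Agent.Lib.Pa7c826w

open Pool.Agent.Lib.Pa7c826 Pool.Agent.Lib.Pa7c826z

/-- an arc of length `2 p q` contains the shifted diagonal -/
theorem arc_shift {h p q L r x y : ℕ} (hL : 2 * p * q ≤ L) (hr : r < h) (hx : x < p) (hy : y < q) :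
    arc h p q L (x + p * r) (y + q * ((r + 1) % h)) := by
  unfold arc
  obtain ⟨A, hA⟩ : ∃ A, A = p * q := ⟨_, rfl⟩
  obtain ⟨B, hB⟩ : ∃ B, B = y * p := ⟨_, rfl⟩
  obtain ⟨C, hC⟩ : ∃ C, C = x * q := ⟨_, rfl⟩
  obtain ⟨R, hR⟩ : ∃ R, R = r * A := ⟨_, rfl⟩
  obtain ⟨N, hN⟩ : ∃ N, N = h * A := ⟨_, rfl⟩
  have e0 : h * p * q = N := by rw [hN, hA]; ring
  have hBA : B + p ≤ A := by
    have : (y + 1) * p ≤ q * p := Nat.mul_le_mul_right p hy
    rw [hB, hA]
    nlinarith
  have hCA : C ≤ A := by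
    rw [hC, hA]
    exact Nat.mul_le_mul_right q hx.le
  have hNR : R + A ≤ N := by
    have : (r + 1) * A ≤ h * A := Nat.mul_le_mul_right A hr
    rw [hN, hR]
    nlinarith
  have hLA : 2 * A ≤ L := by
    rw [hA]
    nlinarith
  have ei : (x + p * r) * q = C + R := by
    rw [hC, hR, hA]
    ring
  have hd : A + B - C < L := by omega
  rw [e0, ei]
  rcases Nat.lt_or_ge (r + 1) h with h1 | h1
  · have ej : (y + q * ((r + 1) % h)) * p = B + R + A := by
      rw [Nat.mod_eq_of_lt h1, hB, hR, hA]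
      ring
    have e1 : (y + q * ((r + 1) % h)) * p + (N - (C + R)) = (A + B - C) + N := by
      rw [ej]
      omega
    rw [e1, Nat.add_mod_right]
    exact lt_of_le_of_lt (Nat.mod_le _ _) hd
  · have h2 : r + 1 = h := by omega
    have ej : (y + q * ((r + 1) % h)) * p = B := by
      rw [h2, Nat.mod_self, hB]
      ring
    have hN2 : N = R + A := by
      rw [hN, ← h2, hR]
      ring
    have e1 : (y + q * ((r + 1) % h)) * p + (N - (C + R)) = A + B - C := by
      rw [ej]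
      omega
    rw [e1]
    exact lt_of_le_of_lt (Nat.mod_le _ _) hd

theorem cnt_arc_le {h p q L : ℕ} (hh : 0 < h) (hL : 2 * p * q ≤ L) :
    cnt (fun (i : Fin (h * p)) (j : Fin (h * q)) => arc h p q L i j) ≤ (2 ^ p + 2 ^ q) ^ h := by
  have : NeZero h := ⟨hh.ne'⟩
  have h1 := cnt_blow_le (Fin h) (Fin p) (Fin q)
  rw [Nat.card_fin, Nat.card_fin, Nat.card_fin] at h1
  refine le_trans ?_ h1
  have h2 : cnt (fun (x : Fin h × Fin p) (y : Fin h × Fin q) =>
      arc h p q L (finProdFinEquiv x : Fin _)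
        ((((Equiv.addRight (1 : Fin h)).prodCongr (Equiv.refl (Fin q))).trans
          finProdFinEquiv) y : Fin _)) =
      cnt (fun (i : Fin (h * p)) (j : Fin (h * q)) => arc h p q L i j) :=
    cnt_congr finProdFinEquiv
      (((Equiv.addRight (1 : Fin h)).prodCongr (Equiv.refl (Fin q))).trans finProdFinEquiv)
      (fun _ _ => Iff.rfl)
  rw [← h2]
  refine cnt_anti ?_
  rintro ⟨r, x⟩ ⟨r', y⟩ hxy
  have h3 : r = r' := hxy
  subst h3
  have h4 := arc_shift (h := h) (L := L) hL r.2 x.2 y.2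
  have h5 : ((r + 1 : Fin h) : ℕ) = (r + 1) % h := by
    rw [Fin.val_add, Fin.val_one', Nat.add_mod_mod]
  simpa [finProdFinEquiv, h5] using h4

end Pool.Agent.Lib.Pa7c826w
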