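import Pool.Agent.Lib.Pa7c826z.Defs
import Pool.Agent.Lib.PolyTime.Comb

/-!
Graphs with few non-isolated vertices; real numbers with computable multiples.
-/

namespace Pool.Agent.Lib.Pa7c826w

open Pool.Agent.Lib.Pa7c826

/-- the number of non-isolated vertices -/
def supp (G : BGraph) : ℕ :=
  (Finset.univ.filter fun i => 0 < G.rowDeg i).card +
    (Finset.univ.filter fun j => 0 < G.colDeg j).card

/-- Bipartite graphs on `M` vertices of which at most `v M` are not isolated. -/
def SmallCore (v : ℕ → ℝ) (G : BGraph) : Prop := (supp G : ℝ) ≤ v (G.a + G.b)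

/-- The function `n ↦ ⌊x n⌋` is computable in time polynomial in `n` (unary coding). -/
def FloorPoly (x : ℝ) : Prop :=
  Nonempty (Turing.TM2ComputableInPolyTime (α := ℕ) (β := ℕ) (αΓ := Bool) (βΓ := Bool)
    (fun n => List.replicate n true) (fun n => List.replicate n true) (fun n => ⌊x * n⌋₊))

end Pool.Agent.Lib.Pa7c826w
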