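import Pool.Agent.Lib.Pa7c826w.Red

/-!
The degrees of the hard instances.

Write `p`, `q`, `s`, `L` for `p5`, `q5`, `s5`, `L5`, `m = supp G`, `N = h (p + q)`.

PROOFS.
`deg5_row`, `deg5_col`: `rowDeg_mkGraph`, `colDeg_mkGraph` with `F5_iff`, `host_row_inl` etc.
(`Pa7c826z/Host.lean`), `arc_row`, `arc_col`; the degrees in the input graph are at most `m`
(every neighbour of a vertex is not isolated; beyond `G.a`, `G.b` there are no edges; compare
`ncard_row_le` in `Pa7c826y/HardRed.lean`). So every degree is in `[min (L/p) (L/q), max + 1 + m]`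
with `L / q ≤ L / p` (natural division), as `p ≤ q`.
`real5`: `L / p ≤ x N` (`Nat.cast_div_le`, floor) and `x N - 2 h s - 3 ≤ L / q` (real numbers):
`L > x N p - 1`, `L / q` (floor) `> L/q - 1 ≥ x N p / q - 2 = x N - x N (q - p)/q - 2`, and
`x N (q - p) / q = x N 2 s / q ≤ 2 h s` since `x ≤ 1/2`, `N = h (p + q) ≤ 2 h q`.
`dev5`: `2 h s + m + 4 ≤ C (m + logb 2 (2 t + 1) + 1)`, `C = 4 h^2 + 8 h + 8`
(`Nat.log 2 n ≤ logb 2 n`).
`class5`: let `w` be monotone, `logb 2 N ≤ w N` for `N ≥ n0`, `m ≤ c w(a + b)` with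
`c = 1 / (2 C)`, `k ≥ 4 C`. `N ≥ p ≥ a + b` and `N ≥ n0`, so `C m ≤ w N / 2`; and
`N ≥ (2 t + 4)^k`, `logb 2 N ≥ 4 C logb 2 (2 t + 4) ≥ 2 C (logb 2 (2 t + 1) + 1)` as
`4 t + 2 ≤ (2 t + 4)^2`, so `C (logb 2 (2t+1) + 1) ≤ w N / 2`. So the deviation is at most `w N`.
-/

namespace Pool.Agent.Lib.Pa7c826w

open Pool.Agent.Lib.Pa7c826 Pool.Agent.Lib.Pa7c826y Pool.Agent.Lib.Pa7c826z

variable {x : ℝ} {h : ℕ} (k n0 : ℕ)

/-- The neighbours of a vertex are not isolated. -/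
theorem ncard_row_supp {w : ℕ} (G : BGraph) (x : Fin w) :
    {y : Fin w | G.F x y = true}.ncard ≤ supp G := by
  have key : ∀ y : Fin w, G.F x y = true → ∃ h : (y : ℕ) < G.b, 0 < G.colDeg ⟨y, h⟩ := by
    intro y hy
    unfold BGraph.F at hy
    split_ifs at hy with h
    refine ⟨h.2, ?_⟩
    unfold BGraph.colDeg
    exact Finset.card_pos.2 ⟨⟨x, h.1⟩, by simpa using hy⟩
  have h : (fun y : Fin w => (y : ℕ)) '' {y : Fin w | G.F x y = true} ⊆
      (fun y : Fin G.b => (y : ℕ)) ''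
        (↑(Finset.univ.filter fun j => 0 < G.colDeg j) : Set (Fin G.b)) := by
    rintro _ ⟨y, hy, rfl⟩
    obtain ⟨h1, h2⟩ := key y hy
    exact ⟨⟨y, h1⟩, by simpa using h2, rfl⟩
  have h2 := Set.ncard_le_ncard h (Set.toFinite _)
  rw [Set.ncard_image_of_injective _ Fin.val_injective,
    Set.ncard_image_of_injective _ Fin.val_injective, Set.ncard_coe_finset] at h2
  unfold supp
  omega

theorem ncard_col_supp {w : ℕ} (G : BGraph) (y : Fin w) :
    {x : Fin w | G.F x y = true}.ncard ≤ supp G := by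
  have key : ∀ x : Fin w, G.F x y = true → ∃ h : (x : ℕ) < G.a, 0 < G.rowDeg ⟨x, h⟩ := by
    intro x hx
    unfold BGraph.F at hx
    split_ifs at hx with h
    refine ⟨h.1, ?_⟩
    unfold BGraph.rowDeg
    exact Finset.card_pos.2 ⟨⟨y, h.2⟩, by simpa using hx⟩
  have h : (fun x : Fin w => (x : ℕ)) '' {x : Fin w | G.F x y = true} ⊆
      (fun x : Fin G.a => (x : ℕ)) ''
        (↑(Finset.univ.filter fun i => 0 < G.rowDeg i) : Set (Fin G.a)) := by
    rintro _ ⟨x, hx, rfl⟩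
    obtain ⟨h1, h2⟩ := key x hx
    exact ⟨⟨x, h1⟩, by simpa using h2, rfl⟩
  have h2 := Set.ncard_le_ncard h (Set.toFinite _)
  rw [Set.ncard_image_of_injective _ Fin.val_injective,
    Set.ncard_image_of_injective _ Fin.val_injective, Set.ncard_coe_finset] at h2
  unfold supp
  omega

theorem p5_pos (G : BGraph) (t : ℕ) : 0 < p5 k n0 G t := by
  unfold p5
  positivity

theorem p5_le_q5D (h : ℕ) (G : BGraph) (t : ℕ) : p5 k n0 G t ≤ q5 h k n0 G t := by
  unfold q5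
  omega

theorem deg5_row (hx0 : 0 < x) (hx : x ≤ 1 / 2) (hh : 2 ≤ x * h) (G : BGraph) (t : ℕ)
    (i : Fin (red5 x h k n0 G t).a) :
    L5 x h k n0 G t / q5 h k n0 G t ≤ (red5 x h k n0 G t).rowDeg i ∧
      (red5 x h k n0 G t).rowDeg i ≤ L5 x h k n0 G t / p5 k n0 G t + 1 + supp G := by
  revert i
  show ∀ i : Fin (h * p5 k n0 G t + h * q5 h k n0 G t),
    L5 x h k n0 G t / q5 h k n0 G t ≤ (red5 x h k n0 G t).rowDeg i ∧
      (red5 x h k n0 G t).rowDeg i ≤ L5 x h k n0 G t / p5 k n0 G t + 1 + supp G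
  intro i
  have hp := p5_pos k n0 G t
  have hpq := p5_le_q5D k n0 h G t
  have hL := L5_le k n0 hx0 hx G t (h := h)
  have hdiv : L5 x h k n0 G t / q5 h k n0 G t ≤ L5 x h k n0 G t / p5 k n0 G t :=
    Nat.div_le_div_left hpq hp
  obtain ⟨z, rfl⟩ := (eq5 (h * p5 k n0 G t) (h * q5 h k n0 G t)).surjective i
  have h1 : (red5 x h k n0 G t).rowDeg (eq5 (h * p5 k n0 G t) (h * q5 h k n0 G t) z) = _ :=
    rowDeg_mkGraph (eq5 (h * p5 k n0 G t) (h * q5 h k n0 G t))
      (eq5 (h * q5 h k n0 G t) (h * p5 k n0 G t))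
      (fun z y => F5_iff (L := L5 x h k n0 G t) G.F z y) z
  rw [h1]
  rcases z with z | z
  · have h2 := arc_row hp (hp.trans_le hpq) hL z
    have h3 := host_row_inl
      (fun (i : Fin (h * p5 k n0 G t)) (j : Fin (h * q5 h k n0 G t)) =>
        arc h (p5 k n0 G t) (q5 h k n0 G t) (L5 x h k n0 G t) i j)
      (fun (j : Fin (h * q5 h k n0 G t)) (i : Fin (h * p5 k n0 G t)) =>
        arc h (p5 k n0 G t) (q5 h k n0 G t) (L5 x h k n0 G t) i j)
      (fun (i j : Fin (h * q5 h k n0 G t)) => G.F i j = true) z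
    unfold rel5
    rw [h3]
    omega
  · have h2 := arc_col hp (hp.trans_le hpq) hL z
    have h3 := host_row_inr
      (fun (i : Fin (h * p5 k n0 G t)) (j : Fin (h * q5 h k n0 G t)) =>
        arc h (p5 k n0 G t) (q5 h k n0 G t) (L5 x h k n0 G t) i j)
      (fun (j : Fin (h * q5 h k n0 G t)) (i : Fin (h * p5 k n0 G t)) =>
        arc h (p5 k n0 G t) (q5 h k n0 G t) (L5 x h k n0 G t) i j)
      (fun (i j : Fin (h * q5 h k n0 G t)) => G.F i j = true) z
    have h4 := ncard_row_supp G z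
    unfold rel5
    rw [h3]
    omega

theorem deg5_col (hx0 : 0 < x) (hx : x ≤ 1 / 2) (hh : 2 ≤ x * h) (G : BGraph) (t : ℕ)
    (j : Fin (red5 x h k n0 G t).b) :
    L5 x h k n0 G t / q5 h k n0 G t ≤ (red5 x h k n0 G t).colDeg j ∧
      (red5 x h k n0 G t).colDeg j ≤ L5 x h k n0 G t / p5 k n0 G t + 1 + supp G := by
  revert j
  show ∀ j : Fin (h * q5 h k n0 G t + h * p5 k n0 G t),
    L5 x h k n0 G t / q5 h k n0 G t ≤ (red5 x h k n0 G t).colDeg j ∧
      (red5 x h k n0 G t).colDeg j ≤ L5 x h k n0 G t / p5 k n0 G t + 1 + supp G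
  intro j
  have hp := p5_pos k n0 G t
  have hpq := p5_le_q5D k n0 h G t
  have hL := L5_le k n0 hx0 hx G t (h := h)
  have hdiv : L5 x h k n0 G t / q5 h k n0 G t ≤ L5 x h k n0 G t / p5 k n0 G t :=
    Nat.div_le_div_left hpq hp
  obtain ⟨z, rfl⟩ := (eq5 (h * q5 h k n0 G t) (h * p5 k n0 G t)).surjective j
  have h1 : (red5 x h k n0 G t).colDeg (eq5 (h * q5 h k n0 G t) (h * p5 k n0 G t) z) = _ :=
    colDeg_mkGraph (eq5 (h * p5 k n0 G t) (h * q5 h k n0 G t))
      (eq5 (h * q5 h k n0 G t) (h * p5 k n0 G t))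
      (fun z y => F5_iff (L := L5 x h k n0 G t) G.F z y) z
  rw [h1]
  rcases z with z | z
  · have h2 := arc_col hp (hp.trans_le hpq) hL z
    have h3 := host_col_inl
      (fun (i : Fin (h * p5 k n0 G t)) (j : Fin (h * q5 h k n0 G t)) =>
        arc h (p5 k n0 G t) (q5 h k n0 G t) (L5 x h k n0 G t) i j)
      (fun (j : Fin (h * q5 h k n0 G t)) (i : Fin (h * p5 k n0 G t)) =>
        arc h (p5 k n0 G t) (q5 h k n0 G t) (L5 x h k n0 G t) i j)
      (fun (i j : Fin (h * q5 h k n0 G t)) => G.F i j = true) z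
    have h4 := ncard_col_supp G z
    unfold rel5
    rw [h3]
    omega
  · have h2 := arc_row hp (hp.trans_le hpq) hL z
    have h3 := host_col_inr
      (fun (i : Fin (h * p5 k n0 G t)) (j : Fin (h * q5 h k n0 G t)) =>
        arc h (p5 k n0 G t) (q5 h k n0 G t) (L5 x h k n0 G t) i j)
      (fun (j : Fin (h * q5 h k n0 G t)) (i : Fin (h * p5 k n0 G t)) =>
        arc h (p5 k n0 G t) (q5 h k n0 G t) (L5 x h k n0 G t) i j)
      (fun (i j : Fin (h * q5 h k n0 G t)) => G.F i j = true) z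
    unfold rel5
    rw [h3]
    omega

theorem real5 (hx0 : 0 < x) (hx : x ≤ 1 / 2) (hh : 2 ≤ x * h) (G : BGraph) (t : ℕ) :
    ((L5 x h k n0 G t / p5 k n0 G t : ℕ) : ℝ) ≤
        x * ((h * (p5 k n0 G t + q5 h k n0 G t) : ℕ) : ℝ) ∧
      x * ((h * (p5 k n0 G t + q5 h k n0 G t) : ℕ) : ℝ) - 2 * h * s5 h G t - 3 ≤
        ((L5 x h k n0 G t / q5 h k n0 G t : ℕ) : ℝ) := by
  have hp := p5_pos k n0 G t
  have hpq := p5_le_q5D k n0 h G t
  have hq : 0 < q5 h k n0 G t := hp.trans_le hpq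
  have hpr : (1 : ℝ) ≤ p5 k n0 G t := by exact_mod_cast hp
  have hqr : (1 : ℝ) ≤ q5 h k n0 G t := by exact_mod_cast hq
  have hqe : (q5 h k n0 G t : ℝ) = p5 k n0 G t + 2 * s5 h G t := by
    unfold q5
    push_cast
    ring
  have hs0 : (0 : ℝ) ≤ s5 h G t := Nat.cast_nonneg _
  have hh0 : (0 : ℝ) ≤ h := Nat.cast_nonneg _
  have hL1 : (L5 x h k n0 G t : ℝ) ≤
      x * ((h * (p5 k n0 G t + q5 h k n0 G t) * p5 k n0 G t : ℕ) : ℝ) :=
    Nat.floor_le (by positivity)
  have hL2 : x * ((h * (p5 k n0 G t + q5 h k n0 G t) * p5 k n0 G t : ℕ) : ℝ) <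
      (L5 x h k n0 G t : ℝ) + 1 := Nat.lt_floor_add_one _
  have hdivlt : L5 x h k n0 G t <
      q5 h k n0 G t * (L5 x h k n0 G t / q5 h k n0 G t + 1) := Nat.lt_mul_div_succ _ hq
  have hdivlt' : (L5 x h k n0 G t : ℝ) <
      q5 h k n0 G t * (((L5 x h k n0 G t / q5 h k n0 G t : ℕ) : ℝ) + 1) := by
    exact_mod_cast hdivlt
  push_cast at hL1 hL2 ⊢
  generalize ((L5 x h k n0 G t / q5 h k n0 G t : ℕ) : ℝ) = D at *
  constructor
  · refine (Nat.cast_div_le).trans ?_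
    rw [div_le_iff₀ (by linarith)]
    linarith
  · generalize (L5 x h k n0 G t : ℝ) = L at *
    generalize (p5 k n0 G t : ℝ) = p at *
    generalize (q5 h k n0 G t : ℝ) = q at *
    generalize (s5 h G t : ℝ) = s at *
    have e1 : x * (h * (p + q)) ≤ h * q := by
      have : h * (p + q) ≤ h * (2 * q) := by
        apply mul_le_mul_of_nonneg_left _ hh0
        linarith
      have h0 : 0 ≤ h * (p + q) := by
        apply mul_nonneg hh0
        linarith
      nlinarith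
    have e2 : x * (h * (p + q)) * (2 * s) ≤ h * q * (2 * s) :=
      mul_le_mul_of_nonneg_right e1 (by linarith)
    have e3 : x * (h * (p + q)) * q - 2 * h * s * q - 1 < q * (D + 1) := by
      have e4 : x * (h * (p + q)) * q = x * (h * (p + q) * p) + x * (h * (p + q)) * (2 * s) := by
        rw [hqe]
        ring
      rw [e4]
      nlinarith
    by_contra hc
    push Not at hc
    have e5 : q * (D + 1) ≤ q * (x * (h * (p + q)) - 2 * h * s - 2) :=
      mul_le_mul_of_nonneg_left (by linarith) (by linarith)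
    nlinarith

/-- the constant in the deviation -/
def devC (h : ℕ) : ℕ := 4 * h ^ 2 + 8 * h + 8

theorem dev5 (G : BGraph) (t : ℕ) :
    (2 * h * s5 h G t + supp G + 4 : ℝ) ≤
      devC h * (supp G + Real.logb 2 (2 * t + 1) + 1) := by
  have h1 : (Nat.log 2 (2 * t + 1) : ℝ) ≤ Real.logb 2 (2 * t + 1) := by
    have := Real.natLog_le_logb (2 * t + 1) 2
    push_cast at this
    exact this
  have h0 : (0 : ℝ) ≤ Nat.log 2 (2 * t + 1) := Nat.cast_nonneg _
  have hs0 : (0 : ℝ) ≤ supp G := Nat.cast_nonneg _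
  have hh0 : (0 : ℝ) ≤ h := Nat.cast_nonneg _
  unfold s5 devC
  push_cast
  generalize (Nat.log 2 (2 * t + 1) : ℝ) = l at *
  generalize Real.logb 2 (2 * t + 1) = lg at *
  generalize (supp G : ℝ) = m at *
  generalize (h : ℝ) = h at *
  have e1 : (4 * h ^ 2 + 8 * h + 8) * (m + l + 1) ≤ (4 * h ^ 2 + 8 * h + 8) * (m + lg + 1) :=
    mul_le_mul_of_nonneg_left (by linarith) (by positivity)
  refine le_trans ?_ e1
  have e2 : 0 ≤ h * m := mul_nonneg hh0 hs0
  have e3 : 0 ≤ h * l := mul_nonneg hh0 h0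
  have e4 : 0 ≤ h ^ 2 * m := mul_nonneg (by positivity) hs0
  have e5 : 0 ≤ h ^ 2 * l := mul_nonneg (by positivity) h0
  nlinarith

theorem class5 (hx0 : 0 < x) (hx : x ≤ 1 / 2) (hh : 2 ≤ x * h) {w : ℕ → ℝ} (hw : Monotone w)
    (hlog : ∀ N : ℕ, n0 ≤ N → Real.logb 2 N ≤ w N) (hk : 4 * devC h ≤ k) (G : BGraph)
    (hG : SmallCore (fun M => 1 / (2 * devC h) * w M) G) {t : ℕ} (ht : 1 ≤ t) :
    DegreeRange x x w (red5 x h k n0 G t) := by
  have hh1 : 1 ≤ h := by
    rcases Nat.eq_zero_or_pos h with h0 | h0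
    · subst h0
      norm_num at hh
    · exact h0
  have hNe : (red5 x h k n0 G t).a = h * (p5 k n0 G t + q5 h k n0 G t) := by
    show h * p5 k n0 G t + h * q5 h k n0 G t = _
    ring
  have hNe' : (red5 x h k n0 G t).b = h * (p5 k n0 G t + q5 h k n0 G t) := by
    show h * q5 h k n0 G t + h * p5 k n0 G t = _
    ring
  have hB : G.a + G.b + 2 * t + 4 + n0 ≤ p5 k n0 G t := by
    unfold p5
    calc G.a + G.b + 2 * t + 4 + n0 = (G.a + G.b + 2 * t + 4 + n0) ^ 1 := (pow_one _).symm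
      _ ≤ _ := Nat.pow_le_pow_right (by omega) (by omega)
  have hpow : (2 * t + 4) ^ k ≤ p5 k n0 G t := by
    unfold p5
    calc (2 * t + 4) ^ k ≤ (G.a + G.b + 2 * t + 4 + n0) ^ k := Nat.pow_le_pow_left (by omega) _
      _ ≤ _ := Nat.pow_le_pow_right (by omega) (by omega)
  have hpN : p5 k n0 G t ≤ h * (p5 k n0 G t + q5 h k n0 G t) :=
    calc p5 k n0 G t ≤ p5 k n0 G t + q5 h k n0 G t := by omega
      _ = 1 * (p5 k n0 G t + q5 h k n0 G t) := (one_mul _).symm
      _ ≤ _ := Nat.mul_le_mul_right _ hh1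
  obtain ⟨r1, r2⟩ := real5 (k := k) (n0 := n0) hx0 hx hh G t
  have hd := dev5 (h := h) G t
  have hC : (8 : ℝ) ≤ devC h := by
    have : 8 ≤ devC h := by
      unfold devC
      omega
    exact_mod_cast this
  -- the core
  have hcore : (devC h : ℝ) * supp G ≤ w (h * (p5 k n0 G t + q5 h k n0 G t)) / 2 := by
    have e1 : (supp G : ℝ) ≤ 1 / (2 * devC h) * w (G.a + G.b) := hG
    have e2 : w (G.a + G.b) ≤ w (h * (p5 k n0 G t + q5 h k n0 G t)) := hw (by omega)
    have e3 : (devC h : ℝ) * supp G ≤ devC h * (1 / (2 * devC h) * w (G.a + G.b)) :=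
      mul_le_mul_of_nonneg_left e1 (by linarith)
    have e4 : (devC h : ℝ) * (1 / (2 * devC h) * w (G.a + G.b)) = w (G.a + G.b) / 2 := by
      field_simp
    linarith
  -- the logarithm
  have hlg : (devC h : ℝ) * (Real.logb 2 (2 * t + 1) + 1) ≤
      w (h * (p5 k n0 G t + q5 h k n0 G t)) / 2 := by
    have e1 := hlog (h * (p5 k n0 G t + q5 h k n0 G t)) (by omega)
    have ht0 : (0 : ℝ) ≤ t := Nat.cast_nonneg _
    have e2 : Real.logb 2 ((2 * t + 4) ^ k) ≤
        Real.logb 2 ((h * (p5 k n0 G t + q5 h k n0 G t) : ℕ) : ℝ) := by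
      apply Real.logb_le_logb_of_le (by norm_num) (by positivity)
      exact_mod_cast hpow.trans hpN
    rw [Real.logb_pow] at e2
    have e3 : Real.logb 2 (2 * t + 1) + 1 = Real.logb 2 ((2 * t + 1) * 2) := by
      rw [Real.logb_mul (by positivity) (by norm_num), Real.logb_self_eq_one (by norm_num)]
    have e4 : Real.logb 2 ((2 * t + 1) * 2) ≤ Real.logb 2 ((2 * t + 4 : ℝ) ^ 2) := by
      apply Real.logb_le_logb_of_le (by norm_num) (by positivity)
      nlinarith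
    rw [Real.logb_pow] at e4
    push_cast at e4
    have e5 : 0 ≤ Real.logb 2 (2 * t + 4 : ℝ) :=
      Real.logb_nonneg (by norm_num) (by linarith)
    have e6 : (4 * devC h : ℝ) * Real.logb 2 (2 * t + 4) ≤ k * Real.logb 2 (2 * t + 4) :=
      mul_le_mul_of_nonneg_right (by exact_mod_cast hk) e5
    have e7 : (devC h : ℝ) * (Real.logb 2 (2 * t + 1) + 1) ≤
        devC h * (2 * Real.logb 2 (2 * t + 4)) :=
      mul_le_mul_of_nonneg_left (by rw [e3]; exact e4) (by linarith)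
    linarith
  have hw1 : (2 * h * s5 h G t + supp G + 4 : ℝ) ≤
      w (h * (p5 k n0 G t + q5 h k n0 G t)) := by
    have : (devC h : ℝ) * (supp G + Real.logb 2 (2 * t + 1) + 1) =
        devC h * supp G + devC h * (Real.logb 2 (2 * t + 1) + 1) := by ring
    linarith
  have hm0 : (0 : ℝ) ≤ supp G := Nat.cast_nonneg _
  have hs0 : (0 : ℝ) ≤ 2 * h * s5 h G t := by positivity
  refine ⟨hNe.trans hNe'.symm, fun i => ?_, fun j => ?_⟩
  · obtain ⟨d1, d2⟩ := deg5_row (k := k) (n0 := n0) hx0 hx hh G t i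
    have d1' : ((L5 x h k n0 G t / q5 h k n0 G t : ℕ) : ℝ) ≤ (red5 x h k n0 G t).rowDeg i := by
      exact_mod_cast d1
    have d2' : ((red5 x h k n0 G t).rowDeg i : ℝ) ≤
        ((L5 x h k n0 G t / p5 k n0 G t : ℕ) : ℝ) + 1 + supp G := by
      exact_mod_cast d2
    rw [hNe]
    constructor <;> linarith
  · obtain ⟨d1, d2⟩ := deg5_col (k := k) (n0 := n0) hx0 hx hh G t j
    have d1' : ((L5 x h k n0 G t / q5 h k n0 G t : ℕ) : ℝ) ≤ (red5 x h k n0 G t).colDeg j := by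
      exact_mod_cast d1
    have d2' : ((red5 x h k n0 G t).colDeg j : ℝ) ≤
        ((L5 x h k n0 G t / p5 k n0 G t : ℕ) : ℝ) + 1 + supp G := by
      exact_mod_cast d2
    rw [hNe]
    constructor <;> linarith

end Pool.Agent.Lib.Pa7c826w
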