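import Pool.Agent.Lib.Pa7c826w.Defs
import Pool.Agent.Lib.Pa7c826z.Red

/-!
Adding isolated vertices: graphs with a small core are as hard as all graphs, if the core may be
polynomially large.
-/

namespace Pool.Agent.Lib.Pa7c826w

open Pool.Agent.Lib.PolyTime Pool.Agent.Lib.Pa7c826 Pool.Agent.Lib.Pa7c826y
  Pool.Agent.Lib.Pa7c826z

/-- more isolated left vertices -/
def padG (G : BGraph) (r : ℕ) : BGraph := mkGraph (G.a + r) G.b G.F

namespace PadAux

theorem F_out (G : BGraph) {i j : ℕ} (h : G.a ≤ i ∨ G.b ≤ j) : G.F i j = false := by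
  unfold BGraph.F
  rw [dif_neg]
  rintro ⟨h1, h2⟩
  omega

end PadAux

theorem numIndep_padG (G : BGraph) (r : ℕ) :
    numIndep (padG G r).graph = numIndep G.graph * 2 ^ r := by
  have h1 := cnt_pad (γ := Fin r) (δ := Fin 0)
    (fun (i : Fin G.a) (j : Fin G.b) => G.F i j = true)
  rw [cnt_graph, Nat.card_fin, Nat.card_fin, Nat.add_zero] at h1
  rw [← h1]
  refine numIndep_mkGraph (finSumFinEquiv (m := G.a) (n := r))
    (Equiv.sumEmpty (Fin G.b) (Fin 0)) ?_
  rintro (x | x) (y | y)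
  · simp [pad]
  · exact y.elim0
  · have h2 : G.F ((finSumFinEquiv (m := G.a) (n := r) (Sum.inr x) : Fin (G.a + r)) : ℕ)
        ((Equiv.sumEmpty (Fin G.b) (Fin 0) (Sum.inl y) : Fin G.b) : ℕ) = false := by
      apply PadAux.F_out
      left
      simp
    rw [h2]
    simp [pad]
  · exact y.elim0

namespace PadAux

theorem padG_rowDeg (G : BGraph) (r : ℕ) (i : Fin (G.a + r)) (h : (i : ℕ) < G.a) :
    (padG G r).rowDeg i = G.rowDeg ⟨i, h⟩ := by
  unfold BGraph.rowDeg
  show (Finset.univ.filter fun j : Fin G.b => G.F i j = true).card = _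
  congr 1
  ext j
  simp only [Finset.mem_filter, Finset.mem_univ, true_and]
  rw [← G.F_eq]

theorem padG_rowDeg_zero (G : BGraph) (r : ℕ) (i : Fin (G.a + r)) (h : G.a ≤ (i : ℕ)) :
    (padG G r).rowDeg i = 0 := by
  unfold BGraph.rowDeg
  show (Finset.univ.filter fun j : Fin G.b => G.F i j = true).card = _
  rw [Finset.card_eq_zero, Finset.filter_eq_empty_iff]
  intro j _
  rw [F_out G (Or.inl h)]
  simp

theorem padG_colDeg (G : BGraph) (r : ℕ) (j : Fin G.b) :
    (padG G r).colDeg j = G.colDeg j := by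
  unfold BGraph.colDeg
  show (Finset.univ.filter fun i : Fin (G.a + r) => G.F i j = true).card = _
  refine Finset.card_bij' (fun i hi => (⟨i, ?_⟩ : Fin G.a)) (fun i _ => Fin.castAdd r i)
    ?_ ?_ ?_ ?_
  · by_contra h
    rw [Finset.mem_filter] at hi
    rw [F_out G (Or.inl (by omega))] at hi
    exact absurd hi.2 (by simp)
  · intro i hi
    rw [Finset.mem_filter] at hi ⊢
    exact ⟨Finset.mem_univ _, by rw [← G.F_eq]; exact hi.2⟩
  · intro i hi
    rw [Finset.mem_filter] at hi ⊢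
    exact ⟨Finset.mem_univ _, by rw [← G.F_eq] at hi; exact hi.2⟩
  · intro i _
    rfl
  · intro i _
    rfl

theorem row_card (G : BGraph) (r : ℕ) :
    (Finset.univ.filter fun i : Fin (G.a + r) => 0 < (padG G r).rowDeg i).card ≤
      (Finset.univ.filter fun i : Fin G.a => 0 < G.rowDeg i).card := by
  rw [← Finset.card_map (s := Finset.univ.filter fun i : Fin G.a => 0 < G.rowDeg i)
    (Fin.castAddEmb r)]
  apply Finset.card_le_card
  intro i hi
  rw [Finset.mem_filter] at hi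
  rw [Finset.mem_map]
  by_cases h : (i : ℕ) < G.a
  · refine ⟨⟨i, h⟩, ?_, rfl⟩
    rw [Finset.mem_filter, ← padG_rowDeg G r i h]
    exact ⟨Finset.mem_univ _, hi.2⟩
  · have h2 := hi.2
    rw [padG_rowDeg_zero G r i (by omega)] at h2
    exact absurd h2 (lt_irrefl 0)

end PadAux

open PadAux

theorem supp_padG (G : BGraph) (r : ℕ) : supp (padG G r) ≤ supp G := by
  unfold supp
  refine Nat.add_le_add ?_ ?_
  · exact row_card G r
  · refine le_of_eq (congrArg Finset.card ?_)
    refine Finset.filter_congr ?_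
    intro j _
    rw [padG_colDeg]

theorem supp_le (G : BGraph) : supp G ≤ G.a + G.b := by
  unfold supp
  refine Nat.add_le_add ?_ ?_
  · refine (Finset.card_filter_le _ _).trans (le_of_eq ?_)
    simp
  · refine (Finset.card_filter_le _ _).trans (le_of_eq ?_)
    simp

theorem supp_small (G : BGraph) (h : G.a + G.b ≤ 1) : supp G = 0 := by
  unfold supp
  have h1 : ∀ i : Fin G.a, G.rowDeg i = 0 := by
    intro i
    have hi := i.2
    have hb : G.b = 0 := by omega
    unfold BGraph.rowDeg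
    rw [Finset.card_eq_zero, Finset.filter_eq_empty_iff]
    intro j _
    have := j.2
    omega
  have h2 : ∀ j : Fin G.b, G.colDeg j = 0 := by
    intro j
    have hj := j.2
    have ha : G.a = 0 := by omega
    unfold BGraph.colDeg
    rw [Finset.card_eq_zero, Finset.filter_eq_empty_iff]
    intro i _
    have := i.2
    omega
  simp [h1, h2]

theorem core_hard {v : ℕ → ℝ} (hv0 : ∀ M, 0 ≤ v M) {k : ℕ}
    (hv : ∀ M : ℕ, 2 ≤ M → (M : ℝ) ≤ v (M + M ^ k)) (H : HasFPRAS (SmallCore v)) :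
    HasFPRAS (fun _ => True) := by
  have hw : PolyC (fun x : BGraph × ℕ => (fun _ : BGraph => True) x.1 ∧ 1 ≤ x.2)
      [fun x => inCode x.1 x.2] (fun x => inCode x.1 x.2) := PolyC.var (by simp)
  have ha := poly_a hw
  have hb := poly_b hw
  have ht := poly_s hw
  have hK := PolyN.pow (ha.add hb) k
  refine HasFPRAS.transfer2 (fun G _ => padG G ((G.a + G.b) ^ k))
    (fun G _ => (G.a + G.b) ^ k) ?_ hK ?_ ?_ H
  · refine poly_inCode (a := fun x : BGraph × ℕ => x.1.a + (x.1.a + x.1.b) ^ k)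
      (b := fun x : BGraph × ℕ => x.1.b) (F := fun x => x.1.F) (ha.add hK) hb
      ((PolyN.const 2).mul ht) ?_
    have W1 := up (n := fun x : BGraph × ℕ => x.1.a + (x.1.a + x.1.b) ^ k) hw
    have I1 := last (D := fun x : BGraph × ℕ => (fun _ : BGraph => True) x.1 ∧ 1 ≤ x.2)
      (ctx := [fun x => inCode x.1 x.2])
      (n := fun x : BGraph × ℕ => x.1.a + (x.1.a + x.1.b) ^ k)
    have W2 := up (n := fun p : (BGraph × ℕ) × ℕ => p.1.1.b) W1
    have I2 := upN (n := fun p : (BGraph × ℕ) × ℕ => p.1.1.b) I1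
    have J2 := last (D := fun p : (BGraph × ℕ) × ℕ =>
        ((fun _ : BGraph => True) p.1.1 ∧ 1 ≤ p.1.2) ∧ p.2 < p.1.1.a + (p.1.1.a + p.1.1.b) ^ k)
      (ctx := PolyTime.lift [fun x : BGraph × ℕ => inCode x.1 x.2] ++
        [fun p : (BGraph × ℕ) × ℕ => un p.2]) (n := fun p => p.1.1.b)
    exact poly_F W2 I2 J2
  · intro G t _ _
    unfold SmallCore
    have e : ((padG G ((G.a + G.b) ^ k)).a + (padG G ((G.a + G.b) ^ k)).b) =
        (G.a + G.b) + (G.a + G.b) ^ k := by
      show (G.a + (G.a + G.b) ^ k) + G.b = _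
      ring
    rw [e]
    rcases Nat.lt_or_ge (G.a + G.b) 2 with h | h
    · have h1 := supp_padG G ((G.a + G.b) ^ k)
      rw [supp_small G (by omega)] at h1
      have h2 : supp (padG G ((G.a + G.b) ^ k)) = 0 := by omega
      rw [h2, Nat.cast_zero]
      exact hv0 _
    · refine le_trans ?_ (hv _ h)
      exact_mod_cast (supp_padG G _).trans (supp_le G)
  · intro G t _ _
    rw [numIndep_padG]
    have h2 : (0 : ℚ) < 2 ^ ((G.a + G.b) ^ k) := by positivity
    have e : ((numIndep G.graph * 2 ^ ((G.a + G.b) ^ k) : ℕ) : ℚ) / 2 ^ ((G.a + G.b) ^ k) =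
        numIndep G.graph := by
      push_cast
      rw [mul_div_assoc, div_self h2.ne', mul_one]
    rw [e, sub_self, abs_zero]
    positivity

theorem rpow_core {c ε : ℝ} (hc : 0 < c) (hε : 0 < ε) :
    ∃ k : ℕ, ∀ M : ℕ, 2 ≤ M → (M : ℝ) ≤ c * ((M + M ^ k : ℕ) : ℝ) ^ ε := by
  obtain ⟨k1, hk1⟩ := window_linear hc
  obtain ⟨k2, hk2⟩ := exists_nat_gt ((1 + k1) / ε)
  have hk : (1 + (k1 : ℝ)) ≤ k2 * ε := by
    rw [div_lt_iff₀ hε] at hk2
    exact hk2.le
  refine ⟨k2, fun M hM => ?_⟩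
  have h1 : (1 : ℝ) ≤ M := by
    have : 1 ≤ M := by omega
    exact_mod_cast this
  have h0 : (0 : ℝ) ≤ M := by linarith
  have h3 := hk1 M (M ^ (1 + k1)) hM (Nat.pow_le_pow_right (by omega) (by omega))
  refine h3.trans (mul_le_mul_of_nonneg_left ?_ hc.le)
  calc (((M ^ (1 + k1) : ℕ) : ℝ)) = (M : ℝ) ^ (1 + (k1 : ℝ)) := by
        push_cast
        rw [← Real.rpow_natCast]
        push_cast
        rfl
    _ ≤ (M : ℝ) ^ ((k2 : ℝ) * ε) := Real.rpow_le_rpow_of_exponent_le h1 hk
    _ = ((M : ℝ) ^ k2) ^ ε := by rw [Real.rpow_mul h0, Real.rpow_natCast]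
    _ ≤ _ := by
        refine Real.rpow_le_rpow (by positivity) ?_ hε.le
        push_cast
        linarith

end Pool.Agent.Lib.Pa7c826w
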