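import Pool.Agent.Lib.Pa7c826w.Red
import Pool.Agent.Lib.Pa7c826.Transfer

/-!
The reduction runs in polynomial time.

PROOFS.
`poly_floor`: `PolyC.applyTM2` with the machine of `FloorPoly`: `ea = eb = List.replicate · true = un`.
`floorPoly_rat`: `⌊(u / v) n⌋ = u n / v` (`Nat.floor_div_eq_div`), `PolyN.mul`, `PolyN.div`,
`PolyC.toTM2` with `D = fun _ => True` and the change from `{n // True}` to `ℕ` as in
`HasFPRAS.mono` (`Pa7c826/Transfer.lean`).
`poly_log`: `Nat.log 2 x = #{i < x | 2 ^ (i + 1) ≤ x}` and `2 ^ (i + 1) ≤ x ↔ 1 ≤ x / 2 ^ (i + 1)`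
(`PolyN.count`, `PolyN.divPow`).
`poly_supp`: two `PolyN.count`; `0 < rowDeg i ↔ ∃ j < b, G.F i j = true` (`PolyB.exists_lt`,
`poly_F`); the cardinality over `Fin a` is the one over `range a` (`Fin.card_filter_univ_eq..`,
or `Finset.card_bij`).
`poly_s5` ...: composition; `poly_L5` by `poly_floor`.
`poly_red5`: `poly_inCode`; `PolyN.mod` needs `0 < h p q`; compare `poly_red4` in
`Pa7c826z/Red.lean`.
-/

namespace Pool.Agent.Lib.Pa7c826w

open Pool.Agent.Lib.PolyTime Pool.Agent.Lib.Pa7c826 Pool.Agent.Lib.Pa7c826z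

theorem poly_floor {α : Type} {D : α → Prop} {ctx : List (α → List Bool)} {f : α → ℕ} {x : ℝ}
    (hx : FloorPoly x) (hf : PolyN D ctx f) : PolyN D ctx (fun a => ⌊x * (f a : ℝ)⌋₊) :=
  PolyC.applyTM2 hx (fun a => un (f a)) (fun a => un ⌊x * (f a : ℝ)⌋₊) hf
    (fun c _ => ⟨f c, rfl, rfl⟩)

theorem floorPoly_rat (q : ℚ) (hq : 0 ≤ q) : FloorPoly q := by
  have e : ∀ n : ℕ, ⌊(q : ℝ) * n⌋₊ = (q.num.toNat * n) / q.den := by
    intro n
    have h1 : (q : ℝ) * n = ((q.num.toNat * n : ℕ) : ℝ) / (q.den : ℝ) := by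
      have h2 : ((q.num.toNat : ℕ) : ℝ) = (q.num : ℝ) := by
        have : ((q.num.toNat : ℕ) : ℤ) = q.num := Int.toNat_of_nonneg (Rat.num_nonneg.2 hq)
        exact_mod_cast this
      have h3 : (q : ℝ) = (q.num : ℝ) / (q.den : ℝ) := by
        exact_mod_cast (Rat.num_div_den q).symm
      push_cast
      rw [h2, h3]
      ring
    rw [h1, Nat.floor_div_eq_div]
  have h1 : PolyN (fun _ : ℕ => True) [fun n : ℕ => un n] (fun n => ⌊(q : ℝ) * n⌋₊) := by
    have hv : PolyN (fun _ : ℕ => True) [fun n : ℕ => un n] (fun n => n) := PolyC.var (by simp)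
    exact (PolyN.div ((PolyN.const q.num.toNat).mul hv) (PolyN.const q.den)
      (fun _ _ => q.den_pos)).congr (fun n _ => (e n).symm)
  obtain ⟨⟨⟨tm, e0, e1⟩, time, hout⟩⟩ :=
    PolyC.toTM2 (α := ℕ) (γ := ℕ) (fun n => un n) (fun n => ⌊(q : ℝ) * n⌋₊) un h1
  exact ⟨⟨⟨tm, e0, e1⟩, time, fun n => hout ⟨n, trivial⟩⟩⟩

theorem poly_log2 {α : Type} {D : α → Prop} {ctx : List (α → List Bool)} {f : α → ℕ}
    (hf : PolyN D ctx f) : PolyN D ctx (fun a => Nat.log 2 (f a)) := by
  have F := upN (n := f) hf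
  have L := last (D := D) (ctx := ctx) (n := f)
  have h := PolyN.count (φ := fun p : α × ℕ => decide (1 ≤ f p.1 / 2 ^ (p.2 + 1))) hf
    (PolyB.le (PolyN.const 1) (PolyN.divPow F L.succ))
  refine h.congr (fun a _ => ?_)
  have e : (Finset.range (f a)).filter (fun i => decide (1 ≤ f a / 2 ^ (i + 1)) = true) =
      Finset.range (Nat.log 2 (f a)) := by
    ext i
    simp only [Finset.mem_filter, Finset.mem_range, decide_eq_true_eq]
    rw [Nat.le_div_iff_mul_le (by positivity), one_mul]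
    rcases Nat.eq_zero_or_pos (f a) with h0 | h0
    · rw [h0]
      simp
    · rw [← Nat.le_log_iff_pow_le (by norm_num) h0.ne']
      constructor
      · rintro ⟨_, h⟩; omega
      · intro h
        have h1 : Nat.log 2 (f a) < f a := Nat.log_lt_self 2 h0.ne'
        omega
  rw [e, Finset.card_range]

theorem Poly_card (n : ℕ) (p : Fin n → Prop) (q : ℕ → Prop) [DecidablePred p] [DecidablePred q]
    (h : ∀ i : Fin n, p i ↔ q i) :
    ((Finset.range n).filter q).card = (Finset.univ.filter p).card := by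
  rw [← Finset.card_map Fin.valEmbedding]
  congr 1
  ext i
  simp only [Finset.mem_filter, Finset.mem_range, Finset.mem_map, Finset.mem_univ, true_and,
    Fin.valEmbedding_apply]
  constructor
  · rintro ⟨h1, h2⟩
    exact ⟨⟨i, h1⟩, (h _).2 h2, rfl⟩
  · rintro ⟨j, h1, rfl⟩
    exact ⟨j.2, (h _).1 h1⟩

theorem Poly_F (G : BGraph) (i : Fin G.a) (j : Fin G.b) : G.F i j = G.E i j := by
  unfold BGraph.F
  rw [dif_pos ⟨i.2, j.2⟩]

variable {x : ℝ} {h k n0 : ℕ} (D : BGraph × ℕ → Prop)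

theorem poly_supp : PolyN D [fun x => inCode x.1 x.2] (fun x => supp x.1) := by
  have hw : PolyC D [fun x => inCode x.1 x.2] (fun x => inCode x.1 x.2) := PolyC.var (by simp)
  have ha := poly_a hw
  have hb := poly_b hw
  have r1 : PolyN D [fun x => inCode x.1 x.2]
      (fun x => (Finset.univ.filter fun i => 0 < x.1.rowDeg i).card) := by
    have W1 := up (n := fun x : BGraph × ℕ => x.1.a) hw
    have B1 := upN (n := fun x : BGraph × ℕ => x.1.a) hb
    have I1 := last (D := D) (ctx := [fun x => inCode x.1 x.2]) (n := fun x => x.1.a)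
    have W2 := up (n := fun p : (BGraph × ℕ) × ℕ => p.1.1.b) W1
    have I2 := upN (n := fun p : (BGraph × ℕ) × ℕ => p.1.1.b) I1
    have J2 := last (D := fun p : (BGraph × ℕ) × ℕ => D p.1 ∧ p.2 < p.1.1.a)
      (ctx := PolyTime.lift [fun x : BGraph × ℕ => inCode x.1 x.2] ++
        [fun p : (BGraph × ℕ) × ℕ => un p.2]) (n := fun p => p.1.1.b)
    have c := PolyN.count ha (PolyB.exists_lt B1 (poly_F W2 I2 J2))
    refine c.congr (fun x _ => ?_)
    refine Poly_card _ _ _ fun i => ?_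
    simp only [decide_eq_true_eq]
    unfold BGraph.rowDeg
    rw [Finset.card_pos]
    constructor
    · rintro ⟨j, hj⟩
      rw [Finset.mem_filter] at hj
      exact ⟨j, j.2, by rw [Poly_F]; exact hj.2⟩
    · rintro ⟨j, hj, hF⟩
      refine ⟨⟨j, hj⟩, ?_⟩
      rw [Finset.mem_filter]
      exact ⟨Finset.mem_univ _, by rw [← Poly_F]; exact hF⟩
  have r2 : PolyN D [fun x => inCode x.1 x.2]
      (fun x => (Finset.univ.filter fun j => 0 < x.1.colDeg j).card) := by
    have W1 := up (n := fun x : BGraph × ℕ => x.1.b) hw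
    have B1 := upN (n := fun x : BGraph × ℕ => x.1.b) ha
    have I1 := last (D := D) (ctx := [fun x => inCode x.1 x.2]) (n := fun x => x.1.b)
    have W2 := up (n := fun p : (BGraph × ℕ) × ℕ => p.1.1.a) W1
    have I2 := upN (n := fun p : (BGraph × ℕ) × ℕ => p.1.1.a) I1
    have J2 := last (D := fun p : (BGraph × ℕ) × ℕ => D p.1 ∧ p.2 < p.1.1.b)
      (ctx := PolyTime.lift [fun x : BGraph × ℕ => inCode x.1 x.2] ++
        [fun p : (BGraph × ℕ) × ℕ => un p.2]) (n := fun p => p.1.1.a)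
    have c := PolyN.count hb (PolyB.exists_lt B1 (poly_F W2 J2 I2))
    refine c.congr (fun x _ => ?_)
    refine Poly_card _ _ _ fun i => ?_
    simp only [decide_eq_true_eq]
    unfold BGraph.colDeg
    rw [Finset.card_pos]
    constructor
    · rintro ⟨j, hj⟩
      rw [Finset.mem_filter] at hj
      exact ⟨j, j.2, by rw [Poly_F]; exact hj.2⟩
    · rintro ⟨j, hj, hF⟩
      refine ⟨⟨j, hj⟩, ?_⟩
      rw [Finset.mem_filter]
      exact ⟨Finset.mem_univ _, by rw [← Poly_F]; exact hF⟩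
  exact r1.add r2

theorem poly_s5 : PolyN D [fun x => inCode x.1 x.2] (fun x => s5 h x.1 x.2) := by
  have hw : PolyC D [fun x => inCode x.1 x.2] (fun x => inCode x.1 x.2) := PolyC.var (by simp)
  have ht := poly_s hw
  exact (((poly_supp D).add ((PolyN.const 2).mul (PolyN.const h))).add
    (poly_log2 (((PolyN.const 2).mul ht).add (PolyN.const 1)))).add (PolyN.const 2)

theorem poly_p5 : PolyN D [fun x => inCode x.1 x.2] (fun x => p5 k n0 x.1 x.2) := by
  have hw : PolyC D [fun x => inCode x.1 x.2] (fun x => inCode x.1 x.2) := PolyC.var (by simp)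
  have ha := poly_a hw
  have hb := poly_b hw
  have ht := poly_s hw
  exact PolyN.pow ((((ha.add hb).add ((PolyN.const 2).mul ht)).add (PolyN.const 4)).add
    (PolyN.const n0)) (k + 1)

theorem poly_q5 : PolyN D [fun x => inCode x.1 x.2] (fun x => q5 h k n0 x.1 x.2) :=
  (poly_p5 D).add ((PolyN.const 2).mul (poly_s5 D))

theorem poly_L5 (hx : FloorPoly x) :
    PolyN D [fun x => inCode x.1 x.2] (fun y => L5 x h k n0 y.1 y.2) :=
  poly_floor hx (((PolyN.const h).mul ((poly_p5 D).add (poly_q5 D))).mul (poly_p5 D))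

theorem poly_K5 : PolyN D [fun x => inCode x.1 x.2] (fun x => K5 h k n0 x.1 x.2) := by
  have hw : PolyC D [fun x => inCode x.1 x.2] (fun x => inCode x.1 x.2) := PolyC.var (by simp)
  have ha := poly_a hw
  have hb := poly_b hw
  have hq := (PolyN.const h).mul (poly_q5 (h := h) (k := k) (n0 := n0) D)
  exact (PolyN.sub hq ha).add (PolyN.sub hq hb)

theorem Poly_p5_pos (k n0 : ℕ) (G : BGraph) (t : ℕ) : 0 < p5 k n0 G t := by
  unfold p5
  positivity

theorem Poly_q5_pos (h k n0 : ℕ) (G : BGraph) (t : ℕ) : 0 < q5 h k n0 G t := by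
  have := Poly_p5_pos k n0 G t
  unfold q5
  omega

theorem poly_red5 (hx : FloorPoly x) (hh : 0 < h) :
    PolyC D [fun x => inCode x.1 x.2] (fun y => inCode (red5 x h k n0 y.1 y.2) (2 * y.2)) := by
  have hw : PolyC D [fun x => inCode x.1 x.2] (fun x => inCode x.1 x.2) := PolyC.var (by simp)
  have ht := poly_s hw
  have h2t := (PolyN.const 2).mul ht
  have hp := poly_p5 (k := k) (n0 := n0) D
  have hq := poly_q5 (h := h) (k := k) (n0 := n0) D
  have hL := poly_L5 (h := h) (k := k) (n0 := n0) D hx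
  let n1 : BGraph × ℕ → ℕ := fun x => h * p5 k n0 x.1 x.2 + h * q5 h k n0 x.1 x.2
  let n1' : BGraph × ℕ → ℕ := fun x => h * q5 h k n0 x.1 x.2 + h * p5 k n0 x.1 x.2
  have hn1 : PolyN D [fun x => inCode x.1 x.2] n1 :=
    ((PolyN.const h).mul hp).add ((PolyN.const h).mul hq)
  have hn1' : PolyN D [fun x => inCode x.1 x.2] n1' :=
    ((PolyN.const h).mul hq).add ((PolyN.const h).mul hp)
  refine poly_inCode (a := n1) (b := n1') hn1 hn1' h2t ?_
  have P1 := upN (n := n1) hp
  have Q1 := upN (n := n1) hq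
  have L1 := upN (n := n1) hL
  have W1 := up (n := n1) hw
  have I1 := last (D := D) (ctx := [fun x => inCode x.1 x.2]) (n := n1)
  let n2 : (BGraph × ℕ) × ℕ → ℕ := fun p => n1' p.1
  have P2 := upN (n := n2) P1
  have Q2 := upN (n := n2) Q1
  have L2 := upN (n := n2) L1
  have W2 := up (n := n2) W1
  have I2 := upN (n := n2) I1
  have J2 := last (D := fun p : (BGraph × ℕ) × ℕ => D p.1 ∧ p.2 < n1 p.1)
    (ctx := PolyTime.lift [fun x : BGraph × ℕ => inCode x.1 x.2] ++
      [fun p : (BGraph × ℕ) × ℕ => un p.2]) (n := n2)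
  have hP2 := (PolyN.const h).mul P2
  have hQ2 := (PolyN.const h).mul Q2
  have hPQ2 := hP2.mul Q2
  have I2' := PolyN.sub I2 hP2
  have J2' := PolyN.sub J2 hQ2
  have hpos : ∀ (G : BGraph) (t : ℕ), 0 < h * p5 k n0 G t * q5 h k n0 G t := fun G t =>
    Nat.mul_pos (Nat.mul_pos hh (Poly_p5_pos k n0 G t)) (Poly_q5_pos h k n0 G t)
  have c1 := PolyB.lt (PolyN.mod ((J2.mul P2).add (PolyN.sub hPQ2 (I2.mul Q2))) hPQ2
    (fun x _ => hpos x.1.1.1 x.1.1.2)) L2
  have c2 := PolyB.lt (PolyN.mod ((I2'.mul P2).add (PolyN.sub hPQ2 (J2'.mul Q2))) hPQ2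
    (fun x _ => hpos x.1.1.1 x.1.1.2)) L2
  exact (((PolyB.lt I2 hP2).and (PolyB.lt J2 hQ2)).and c1).or
    ((((PolyB.le hP2 I2).and (PolyB.le hQ2 J2)).and c2).or
      (((PolyB.le hP2 I2).and (PolyB.lt J2 hQ2)).and (poly_F W2 I2' J2)))

end Pool.Agent.Lib.Pa7c826w
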