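import Pool.Agent.Lib.Pa7c826w.Deg
import Pool.Agent.Lib.Pa7c826w.Poly
import Pool.Agent.Lib.Pa7c826w.Pad
import Pool.Agent.Lib.Pa7c826z.Easy

/-!
The window theorem: assembly.
-/

namespace Pool.Agent.Lib.Pa7c826w

open Filter Pool.Agent.Lib.Pa7c826 Pool.Agent.Lib.Pa7c826z

namespace FinalAux

theorem range_mono {x x' y y' : ℝ} {w w' : ℕ → ℝ}
    (h1 : ∀ N : ℕ, x * N - w N ≤ x' * N - w' N) (h2 : ∀ N : ℕ, y' * N + w' N ≤ y * N + w N)
    (G : BGraph) (h : DegreeRange x' y' w' G) : DegreeRange x y w G := by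
  obtain ⟨e, hr, hc⟩ := h
  exact ⟨e, fun i => ⟨(h1 _).trans (hr i).1, (hr i).2.trans (h2 _)⟩,
    fun j => ⟨(h1 _).trans (hc j).1, (hc j).2.trans (h2 _)⟩⟩

end FinalAux

open FinalAux

theorem hard_window {x y : ℝ} (hx0 : 0 < x) (hx : x ≤ 1 / 2) (hxy : x ≤ y) (hf : FloorPoly x) :
    ∃ c : ℝ, 0 < c ∧ ∀ w : ℕ → ℝ, Monotone w → (∀ᶠ N : ℕ in atTop, Real.logb 2 N ≤ w N) →
      HasFPRAS (DegreeRange x y w) → HasFPRAS (SmallCore (fun M => c * w M)) := by
  set h : ℕ := ⌈2 / x⌉₊ with hh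
  have h1 : 2 ≤ x * h := by
    have h2 : 2 / x ≤ h := Nat.le_ceil _
    rw [div_le_iff₀ hx0] at h2
    linarith
  have hh0 : 0 < h := by
    rw [hh]
    exact Nat.ceil_pos.2 (by positivity)
  have hC : (0 : ℝ) < devC h := by
    have : 0 < devC h := by
      unfold devC
      omega
    exact_mod_cast this
  refine ⟨1 / (2 * devC h), by positivity, ?_⟩
  intro w hw hlog H
  obtain ⟨n0, hn0⟩ := eventually_atTop.1 hlog
  refine HasFPRAS.transfer2 (C' := DegreeRange x y w) (red5 x h (4 * devC h) n0)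
    (K5 h (4 * devC h) n0) (poly_red5 _ hf hh0) (poly_K5 _) ?_ ?_ H
  · intro G t hG ht
    refine range_mono (fun N => le_refl _) (fun N => ?_) _
      (class5 _ _ hx0 hx h1 hw hn0 le_rfl G hG ht)
    have : (0 : ℝ) ≤ N := Nat.cast_nonneg _
    have := mul_le_mul_of_nonneg_right hxy this
    linarith
  · intro G t _ _
    exact close5 _ _ hx0 hx h1 G t

theorem hard_rpow {x y : ℝ} (hx0 : 0 < x) (hx : x ≤ 1 / 2) (hxy : x ≤ y) (hf : FloorPoly x)
    {ε : ℝ} (hε : 0 < ε) (H : HasFPRAS (DegreeRange x y (fun N => (N : ℝ) ^ ε))) :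
    HasFPRAS (fun _ => True) := by
  obtain ⟨c, hc, h1⟩ := hard_window hx0 hx hxy hf
  have h2 := h1 (fun N => (N : ℝ) ^ ε) ?_ ?_ H
  · obtain ⟨k, hk⟩ := rpow_core hc hε
    refine core_hard (k := k) (fun M => by positivity) ?_ h2
    intro M hM
    exact hk M hM
  · intro a b hab
    exact Real.rpow_le_rpow (Nat.cast_nonneg _) (by exact_mod_cast hab) hε.le
  · have h3 := isLittleO_log_rpow_atTop hε
    have h4 := (h3.def (show (0 : ℝ) < Real.log 2 by positivity))
    have h5 := tendsto_natCast_atTop_atTop (R := ℝ) |>.eventually h4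
    filter_upwards [h5, eventually_ge_atTop 1] with N hN hN1
    have h6 : (1 : ℝ) ≤ N := by exact_mod_cast hN1
    rw [Real.norm_of_nonneg (Real.log_nonneg h6), Real.norm_of_nonneg (by positivity)] at hN
    rw [Real.logb, div_le_iff₀ (Real.log_pos (by norm_num))]
    linarith

theorem easy_linear {x y θ : ℝ} (hθ : θ < x - 1 / 2) :
    HasFPTAS (DegreeRange x y (fun N => θ * N)) := by
  refine easy_minDeg (c := 0) ?_ ?_
  · refine Eventually.of_forall fun N => ?_
    have : (0 : ℝ) ≤ N := Nat.cast_nonneg _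
    nlinarith
  · refine Eventually.of_forall fun N => ?_
    have : (0 : ℝ) ≤ N := Nat.cast_nonneg _
    simp only [Nat.cast_zero, zero_mul, add_zero]
    nlinarith

theorem hard_linear {x y θ : ℝ} (hx0 : 0 < x) (hxy : x ≤ y) (hθ0 : 0 < θ) (hθ : x - 1 / 2 < θ)
    (H : HasFPRAS (DegreeRange x y (fun N => θ * N))) : HasFPRAS (fun _ => True) := by
  set x' : ℝ := max (x - θ) (min x (1 / 2) / 2) with hx'
  have h0 : 0 < min x (1 / 2) := lt_min hx0 (by norm_num)
  have h1 : 0 < x' := lt_of_lt_of_le (by linarith) (le_max_right _ _)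
  have h2 : x' < 1 / 2 := by
    refine max_lt (by linarith) ?_
    have : min x (1 / 2) ≤ 1 / 2 := min_le_right _ _
    linarith
  have h3 : x' < y := by
    refine max_lt (by linarith) ?_
    have : min x (1 / 2) ≤ x := min_le_left _ _
    linarith
  have h4 : x - θ ≤ x' := le_max_left _ _
  refine hard_range h1 h3 h2 (H.mono ?_)
  refine range_mono (fun N => ?_) (fun N => ?_)
  · have h5 : (0 : ℝ) ≤ N := Nat.cast_nonneg _
    have := mul_le_mul_of_nonneg_right h4 h5
    linarith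
  · have h5 : (0 : ℝ) ≤ N := Nat.cast_nonneg _
    have := mul_nonneg hθ0.le h5
    linarith

end Pool.Agent.Lib.Pa7c826w
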