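import Pool.Agent.Lib.Pa7c826w.ArcCnt
import Pool.Agent.Lib.Pa7c826w.Defs
import Pool.Agent.Lib.Pa7c826z.Red

/-!
The hard instances of density `x`, with degrees in a window of logarithmic size.

The host (`Pa7c826z/Host.lean`) is made of the arc graph between `h p` left and `h q` right vertices,
its transpose, and the input graph between the two large classes (`h q` vertices each).

PROOFS.
`F5_iff`: `eq5 = finSumFinEquiv`; four cases as in `F4_iff` (`Pa7c826z/Red.lean`).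
`numIndep_red5`: `numIndep_mkGraph`.
`supp_lower`: `2 ^ (a + b) ≤ numIndep G.graph * 2 ^ supp G`: every set of isolated vertices is
independent, there are `2 ^ (a + b - supp G)` of them.
`cnt_in5`: as `cnt_rel0` (`Pa7c826z/Red.lean`): `cnt_padded`.
`close5`: as `red4_lower`, `red4_upper`. `host_bounds` with `E1 = arc`, `E2 = transposed arc`
(`cnt` of a transposed relation is the same: `Equiv.prodComm`), `E0` the input:
`X 2^K ≤ R`, `R + 2^(2hq) ≤ X 2^K + (2^p + 2^q)^(2h)`, `(2^p + 2^q)^(2h) = 2^(2hq) (1 + ε)^(2h)`,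
`ε = 2^(-2s)`, `(1 + ε)^(2h) ≤ 1 + 2^(2h) ε` (`pow_bound`), `2^(2hq) = 2^(a+b) 2^K` and
`2^(a+b) ≤ X 2^m` (`supp_lower`, `m = supp G`): `R / 2^K - X ≤ X 2^(m + 2h - 2s) ≤ X / (2t+1)`
because `2 s ≥ m + 2 h + Nat.log 2 (2 t + 1) + 1` and `2 t + 1 ≤ 2 ^ (Nat.log 2 (2 t + 1) + 1)`.
`L5_*`: `L = ⌊x h (p + q) p⌋`: `L ≤ h p q` as `x ≤ 1/2`, `p ≤ q`; `2 p q ≤ L` as `x h ≥ 2`:
`x h (p + q) p ≥ 2 p q + 2 p^2 ≥ 2 p q + 1`.
-/

namespace Pool.Agent.Lib.Pa7c826w

open Pool.Agent.Lib.Pa7c826 Pool.Agent.Lib.Pa7c826y Pool.Agent.Lib.Pa7c826z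

/-- numbering of one side -/
def eq5 (m n : ℕ) : Fin m ⊕ Fin n ≃ Fin (m + n) := finSumFinEquiv

/-- the whole relation -/
def rel5 (h p q L : ℕ) (F : ℕ → ℕ → Bool) :
    Fin (h * p) ⊕ Fin (h * q) → Fin (h * q) ⊕ Fin (h * p) → Prop :=
  host (fun (i : Fin (h * p)) (j : Fin (h * q)) => arc h p q L i j)
    (fun (j : Fin (h * q)) (i : Fin (h * p)) => arc h p q L i j)
    (fun (i j : Fin (h * q)) => F i j = true)

/-- adjacency function -/
def F5 (h p q L : ℕ) (F : ℕ → ℕ → Bool) (i j : ℕ) : Bool :=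
  ((decide (i < h * p) && decide (j < h * q)) &&
      decide ((j * p + (h * p * q - i * q)) % (h * p * q) < L)) ||
  (((decide (h * p ≤ i) && decide (h * q ≤ j)) &&
      decide (((i - h * p) * p + (h * p * q - (j - h * q) * q)) % (h * p * q) < L)) ||
    ((decide (h * p ≤ i) && decide (j < h * q)) && F (i - h * p) j))

variable (x : ℝ) (h k n0 : ℕ)

/-- imbalance -/
def s5 (G : BGraph) (t : ℕ) : ℕ := supp G + 2 * h + Nat.log 2 (2 * t + 1) + 2

/-- size of the small classes -/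
def p5 (G : BGraph) (t : ℕ) : ℕ := (G.a + G.b + 2 * t + 4 + n0) ^ (k + 1)

/-- size of the large classes -/
def q5 (G : BGraph) (t : ℕ) : ℕ := p5 k n0 G t + 2 * s5 h G t

/-- arc length -/
noncomputable def L5 (G : BGraph) (t : ℕ) : ℕ :=
  ⌊x * ((h * (p5 k n0 G t + q5 h k n0 G t) * p5 k n0 G t : ℕ) : ℝ)⌋₊

/-- The new graph. -/
noncomputable def red5 (G : BGraph) (t : ℕ) : BGraph :=
  mkGraph (h * p5 k n0 G t + h * q5 h k n0 G t) (h * q5 h k n0 G t + h * p5 k n0 G t)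
    (F5 h (p5 k n0 G t) (q5 h k n0 G t) (L5 x h k n0 G t) G.F)

/-- The exponent. -/
def K5 (G : BGraph) (t : ℕ) : ℕ :=
  (h * q5 h k n0 G t - G.a) + (h * q5 h k n0 G t - G.b)

theorem eq5_1 (m n : ℕ) (x : Fin m) : (eq5 m n (.inl x) : ℕ) = x := by
  simp [eq5]

theorem eq5_2 (m n : ℕ) (x : Fin n) : (eq5 m n (.inr x) : ℕ) = m + x := by
  simp [eq5]

theorem F5_iff {h p q L : ℕ} (F : ℕ → ℕ → Bool) (x : Fin (h * p) ⊕ Fin (h * q))
    (y : Fin (h * q) ⊕ Fin (h * p)) :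
    rel5 h p q L F x y ↔ F5 h p q L F (eq5 (h * p) (h * q) x) (eq5 (h * q) (h * p) y) = true := by
  rcases x with x | x <;> rcases y with y | y <;>
    simp only [eq5_1, eq5_2, F5, rel5, host, arc, Bool.or_eq_true, Bool.and_eq_true,
      decide_eq_true_eq, Nat.add_sub_cancel_left] <;>
    have hx := x.2 <;> have hy := y.2
  · constructor
    · intro h1
      exact Or.inl ⟨⟨hx, hy⟩, h1⟩
    · rintro (h1 | h1 | h1)
      · exact h1.2
      · omega
      · omega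
  · simp only [false_iff]
    rintro (h1 | h1 | h1) <;> omega
  · constructor
    · intro h1
      exact Or.inr (Or.inr ⟨⟨by omega, hy⟩, h1⟩)
    · rintro (h1 | h1 | h1)
      · omega
      · omega
      · exact h1.2
  · constructor
    · intro h1
      exact Or.inr (Or.inl ⟨⟨by omega, by omega⟩, h1⟩)
    · rintro (h1 | h1 | h1)
      · omega
      · exact h1.2
      · omega

theorem numIndep_red5 (G : BGraph) (t : ℕ) :
    numIndep (red5 x h k n0 G t).graph =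
      cnt (rel5 h (p5 k n0 G t) (q5 h k n0 G t) (L5 x h k n0 G t) G.F) :=
  numIndep_mkGraph (eq5 _ _) (eq5 _ _) (fun x y => F5_iff G.F x y)

theorem supp_lower (G : BGraph) : 2 ^ (G.a + G.b) ≤ numIndep G.graph * 2 ^ supp G := by
  classical
  set A : Finset (Fin G.a) := Finset.univ.filter (fun i => ¬ 0 < G.rowDeg i) with hA
  set B : Finset (Fin G.b) := Finset.univ.filter (fun j => ¬ 0 < G.colDeg j) with hB
  have h1 : (𝒫 (A : Set (Fin G.a)) ×ˢ 𝒫 (B : Set (Fin G.b))) ⊆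
      ind (fun (i : Fin G.a) (j : Fin G.b) => G.E i j = true) := by
    rintro ⟨P, Q⟩ ⟨hP, _⟩ i hi j _ hE
    have h2 := hP hi
    rw [hA, Finset.mem_coe, Finset.mem_filter] at h2
    exact h2.2 (Finset.card_pos.2 ⟨j, Finset.mem_filter.2 ⟨Finset.mem_univ _, hE⟩⟩)
  have h2 : 2 ^ A.card * 2 ^ B.card ≤ numIndep G.graph := by
    have h3 := Set.ncard_le_ncard h1 (Set.toFinite _)
    rw [Set.ncard_prod, Set.ncard_powerset, Set.ncard_powerset, Set.ncard_coe_finset,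
      Set.ncard_coe_finset, ← cnt_eq_ncard, ← numIndep_bip] at h3
    exact h3
  have h4 : (Finset.univ.filter fun i => 0 < G.rowDeg i).card + A.card = G.a := by
    rw [hA, Finset.card_filter_add_card_filter_not, Finset.card_univ, Fintype.card_fin]
  have h5 : (Finset.univ.filter fun j => 0 < G.colDeg j).card + B.card = G.b := by
    rw [hB, Finset.card_filter_add_card_filter_not, Finset.card_univ, Fintype.card_fin]
  have h6 : G.a + G.b = A.card + B.card + supp G := by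
    unfold supp
    omega
  rw [h6, pow_add, pow_add]
  exact Nat.mul_le_mul_right _ h2

/-- transposed relations -/
theorem cnt_transpose {α β : Type*} (E : α → β → Prop) :
    cnt (fun (y : β) (x : α) => E x y) = cnt E := by
  unfold cnt
  refine Nat.card_congr (Equiv.subtypeEquiv (Equiv.prodComm _ _) ?_)
  rintro ⟨P, Q⟩
  exact ⟨fun h a ha b hb => h b hb a ha, fun h b hb a ha => h a ha b hb⟩

variable {x h}

theorem p5_le_q5 (h k n0 : ℕ) (G : BGraph) (t : ℕ) : p5 k n0 G t ≤ q5 h k n0 G t :=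
  Nat.le_add_right _ _

theorem L5_le (hx0 : 0 < x) (hx : x ≤ 1 / 2) (G : BGraph) (t : ℕ) :
    L5 x h k n0 G t ≤ h * p5 k n0 G t * q5 h k n0 G t := by
  unfold L5
  refine Nat.floor_le_of_le ?_
  have h1 : ((p5 k n0 G t : ℕ) : ℝ) ≤ (q5 h k n0 G t : ℕ) := by
    exact_mod_cast p5_le_q5 h k n0 G t
  have hp : (0 : ℝ) ≤ (p5 k n0 G t : ℕ) := Nat.cast_nonneg _
  have hh : (0 : ℝ) ≤ (h : ℕ) := Nat.cast_nonneg _
  push_cast
  set p : ℝ := (p5 k n0 G t : ℝ)
  set q : ℝ := (q5 h k n0 G t : ℝ)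
  have h2 : x * (h * (p + q) * p) ≤ 1 / 2 * (h * (p + q) * p) :=
    mul_le_mul_of_nonneg_right hx (mul_nonneg (mul_nonneg hh (by linarith)) hp)
  have h3 : (h : ℝ) * p * p ≤ h * p * q := mul_le_mul_of_nonneg_left h1 (mul_nonneg hh hp)
  nlinarith

theorem le_L5 (hx0 : 0 < x) (hh : 2 ≤ x * h) (G : BGraph) (t : ℕ) :
    2 * p5 k n0 G t * q5 h k n0 G t ≤ L5 x h k n0 G t := by
  unfold L5
  refine Nat.le_floor ?_
  have hp : (0 : ℝ) ≤ (p5 k n0 G t : ℕ) := Nat.cast_nonneg _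
  have hq : (0 : ℝ) ≤ (q5 h k n0 G t : ℕ) := Nat.cast_nonneg _
  push_cast
  set p : ℝ := (p5 k n0 G t : ℝ)
  set q : ℝ := (q5 h k n0 G t : ℝ)
  have h1 : 0 ≤ (p + q) * p := mul_nonneg (by linarith) hp
  have h2 : 2 * ((p + q) * p) ≤ x * h * ((p + q) * p) := mul_le_mul_of_nonneg_right hh h1
  have h3 : 0 ≤ p * p := mul_nonneg hp hp
  nlinarith

theorem close5 (hx0 : 0 < x) (hx : x ≤ 1 / 2) (hh : 2 ≤ x * h) (G : BGraph) (t : ℕ) :
    |(numIndep (red5 x h k n0 G t).graph : ℚ) / 2 ^ K5 h k n0 G t - numIndep G.graph| ≤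
      numIndep G.graph / (2 * t + 1) := by
  have hh0 : 0 < h := by
    rcases Nat.eq_zero_or_pos h with h0 | h0
    · subst h0
      norm_num at hh
    · exact h0
  have hL := le_L5 k n0 hx0 hh G t
  rw [numIndep_red5]
  unfold rel5
  generalize hLL : L5 x h k n0 G t = L at hL ⊢
  obtain ⟨s, hs⟩ : ∃ s, s = s5 h G t := ⟨_, rfl⟩
  obtain ⟨p, hp⟩ : ∃ p, p = p5 k n0 G t := ⟨_, rfl⟩
  obtain ⟨q, hq⟩ : ∃ q, q = q5 h k n0 G t := ⟨_, rfl⟩
  have hqp : q = p + 2 * s := by rw [hq, hp, hs]; rfl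
  have hpab : G.a + G.b ≤ p := by
    rw [hp]
    unfold p5
    refine le_trans (by omega) (Nat.le_self_pow (Nat.succ_ne_zero k) _)
  have hqh : q ≤ h * q := Nat.le_mul_of_pos_left _ hh0
  have ha : G.a ≤ h * q := by omega
  have hb : G.b ≤ h * q := by omega
  have hK : K5 h k n0 G t = (h * q - G.a) + (h * q - G.b) := by rw [hq]; rfl
  rw [← hp, ← hq] at hL ⊢
  have hB := host_bounds (fun (i : Fin (h * p)) (j : Fin (h * q)) => arc h p q L i j)
    (fun (j : Fin (h * q)) (i : Fin (h * p)) => arc h p q L i j)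
    (fun (i j : Fin (h * q)) => G.F i j = true)
  rw [cnt_padded G ha hb, cnt_transpose (fun (i : Fin (h * p)) (j : Fin (h * q)) =>
    arc h p q L i j), Nat.card_fin, ← hK] at hB
  obtain ⟨h0, h1⟩ := hB
  have hc := cnt_arc_le hh0 hL
  have h2 := Nat.mul_le_mul hc hc
  have hsupp := supp_lower G
  set R : ℚ := (cnt (host (fun (i : Fin (h * p)) (j : Fin (h * q)) => arc h p q L i j)
    (fun (j : Fin (h * q)) (i : Fin (h * p)) => arc h p q L i j)
    (fun (i j : Fin (h * q)) => G.F i j = true)) : ℚ) with hR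
  set X : ℚ := (numIndep G.graph : ℚ) with hX
  have hX1 : (1 : ℚ) ≤ X := by
    rw [hX]
    exact_mod_cast one_le_numIndep G
  have hKpos : (0 : ℚ) < 2 ^ K5 h k n0 G t := by positivity
  have h0' : X * 2 ^ K5 h k n0 G t ≤ R := by
    rw [hX, hR]
    exact_mod_cast h0
  set ε : ℚ := (1 / 2) ^ (2 * s) with hε
  have hε0 : 0 ≤ ε := by positivity
  have hε1 : ε ≤ 1 := pow_le_one₀ (by norm_num) (by norm_num)
  have e1 : (2 : ℚ) ^ p = 2 ^ q * ε := by
    rw [hqp, hε, pow_add, mul_assoc, ← mul_pow]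
    norm_num
  have h5 : R + 2 ^ (h * q + h * q) ≤ X * 2 ^ K5 h k n0 G t +
      2 ^ (h * q + h * q) * (1 + ε) ^ (2 * h) := by
    have h6 : R + 2 ^ (h * q + h * q) ≤ X * 2 ^ K5 h k n0 G t +
        ((2 : ℚ) ^ p + 2 ^ q) ^ h * ((2 : ℚ) ^ p + 2 ^ q) ^ h := by
      rw [hR, hX]
      have := h1.trans (Nat.add_le_add_left h2 _)
      exact_mod_cast this
    refine h6.trans (le_of_eq ?_)
    rw [e1]
    have e2 : (2 : ℚ) ^ q * ε + 2 ^ q = 2 ^ q * (1 + ε) := by ring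
    rw [e2, mul_pow, ← pow_mul, pow_add, mul_comm q h, two_mul h, pow_add]
    ring
  have h7 := pow_bound hε0 hε1 (2 * h)
  have h8 : (2 : ℚ) ^ (h * q + h * q) ≤ X * 2 ^ supp G * 2 ^ K5 h k n0 G t := by
    have e3 : h * q + h * q = (G.a + G.b) + K5 h k n0 G t := by
      rw [hK]
      omega
    rw [e3, pow_add]
    refine mul_le_mul_of_nonneg_right ?_ hKpos.le
    rw [hX]
    exact_mod_cast hsupp
  have h9 : (2 : ℚ) ^ (h * q + h * q) * (1 + ε) ^ (2 * h) ≤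
      2 ^ (h * q + h * q) + 2 ^ (h * q + h * q) * (2 ^ (2 * h) * ε) := by
    have h10 : (1 + ε) ^ (2 * h) ≤ 1 + 2 ^ (2 * h) * ε := by
      have : (2 ^ (2 * h) - 1) * ε ≤ 2 ^ (2 * h) * ε :=
        mul_le_mul_of_nonneg_right (by linarith) hε0
      linarith
    have h11 := mul_le_mul_of_nonneg_left h10
      (by positivity : (0 : ℚ) ≤ 2 ^ (h * q + h * q))
    rw [mul_add, mul_one] at h11
    exact h11
  have h12 : (2 : ℚ) ^ supp G * (2 ^ (2 * h) * ε) ≤ 1 / (2 * t + 1) := by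
    rw [le_div_iff₀ (by positivity)]
    have h13 : (2 * t + 1 : ℚ) ≤ 2 ^ (Nat.log 2 (2 * t + 1) + 1) := by
      have : 2 * t + 1 ≤ 2 ^ (Nat.log 2 (2 * t + 1) + 1) :=
        (Nat.lt_pow_succ_log_self (by norm_num) _).le
      exact_mod_cast this
    have h14 : (2 : ℚ) ^ supp G * (2 ^ (2 * h) * ε) * (2 * t + 1) ≤
        2 ^ supp G * (2 ^ (2 * h) * ε) * 2 ^ (Nat.log 2 (2 * t + 1) + 1) :=
      mul_le_mul_of_nonneg_left h13 (by positivity)
    refine h14.trans ?_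
    have e5 : (2 : ℚ) ^ supp G * (2 ^ (2 * h) * ε) * 2 ^ (Nat.log 2 (2 * t + 1) + 1) =
        2 ^ (supp G + 2 * h + (Nat.log 2 (2 * t + 1) + 1)) * ε := by
      rw [pow_add, pow_add]
      ring
    have e6 : (2 : ℚ) ^ (2 * s) * ε = 1 := by
      rw [hε, ← mul_pow]
      norm_num
    rw [e5, ← e6]
    refine mul_le_mul_of_nonneg_right (pow_le_pow_right₀ (by norm_num) ?_) hε0
    rw [hs]
    unfold s5
    omega
  have h15 : R ≤ X * 2 ^ K5 h k n0 G t + 2 ^ K5 h k n0 G t * (X / (2 * t + 1)) := by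
    have h16 : (2 : ℚ) ^ (h * q + h * q) * (2 ^ (2 * h) * ε) ≤
        X * 2 ^ supp G * 2 ^ K5 h k n0 G t * (2 ^ (2 * h) * ε) :=
      mul_le_mul_of_nonneg_right h8 (by positivity)
    have h17 : X * 2 ^ supp G * 2 ^ K5 h k n0 G t * (2 ^ (2 * h) * ε) =
        X * 2 ^ K5 h k n0 G t * (2 ^ supp G * (2 ^ (2 * h) * ε)) := by ring
    have h18 : X * 2 ^ K5 h k n0 G t * (2 ^ supp G * (2 ^ (2 * h) * ε)) ≤
        X * 2 ^ K5 h k n0 G t * (1 / (2 * t + 1)) :=
      mul_le_mul_of_nonneg_left h12 (by positivity)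
    have h19 : X * 2 ^ K5 h k n0 G t * (1 / (2 * t + 1)) =
        2 ^ K5 h k n0 G t * (X / (2 * t + 1)) := by ring
    linarith
  rw [abs_le]
  constructor
  · have h20 : X ≤ R / 2 ^ K5 h k n0 G t := by
      rw [le_div_iff₀ hKpos]
      exact h0'
    have h21 : 0 ≤ X / (2 * t + 1) := by positivity
    linarith
  · rw [sub_le_iff_le_add, div_le_iff₀ hKpos, add_mul]
    linarith

end Pool.Agent.Lib.Pa7c826w
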